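import Pool.Agent.Helper29.AM.LA3
import Pool.Agent.Helper29.AM.Lev

/-!
# Project AM, block 8C: local Alexandrov-Bakelman-Pucci estimate (8.3)

`v~ = v + (ε/2)|z - z₀|²`, `v~_k = v_k + (ε/2)|z-z₀|²`. For `‖p‖ ≤ ε/4` (real inner product) the function
`v~ - ⟪z - z₀, p⟫` on `closedBall z₀ 1 ∩ O` attains its minimum (the sublevel sets are compact, the value at `z₀` is
`v z₀`) at a point `z_c`; on the sphere the function is `≥ v z₀ + ε/2 - ε/4 > v z₀`, so `z_c` is interior,
`v z_c ≤ v z₀ + ε/4`. Choose `k` with `v z_c = v_k z_c`; `v_k ≥ v` near `z_c`, so `z_c` is a local minimum of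
`v~_k - ⟪z - z₀, p⟫`: the gradient of `v~_k` at `z_c` is `p` and `D²v~_k(z_c) ≥ 0`. By hypothesis
`det hess v~_k(z_c) ≤ m`, by `det_real_le` the real determinant of `D²v~_k(z_c)` is `≤ 4^n m²`. With `Γ_k` the (Borel) set of such
points, `closedBall 0 (ε/4) ⊆ ⋃ ∇v~_k(Γ_k)`, and `addHaar_image_le_lintegral_abs_det_fderiv`.
-/

set_option autoImplicit false

namespace Pool.Agent.Helper29.AM

open MeasureTheory Set Filter Topology
open scoped ComplexOrder

variable {n : ℕ}

private theorem ABP_ct {f : V n → ℝ} {x : V n} (h : ContDiffAt ℝ 2 f x) :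
    DifferentiableAt ℝ (fderiv ℝ f) x := by
  have h1 : ContDiffAt ℝ 1 (fderiv ℝ f) x := h.fderiv_right (by norm_num)
  exact h1.differentiableAt (by norm_num)

private theorem ABP_ev {f : V n → ℝ} {x : V n} (h : ContDiffAt ℝ 2 f x) :
    ∀ᶠ y in 𝓝 x, DifferentiableAt ℝ f y := by
  filter_upwards [h.eventually (by simp)] with y hy
  exact hy.differentiableAt (by norm_num)

/-- second derivative test at a minimum, tilted by a linear function -/
private theorem ABP_crit {f : V n → ℝ} {z z₀ p : V n} (hu : ContDiffAt ℝ 2 f z)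
    (h : IsLocalMin (fun y => f y - innerSL ℝ p (y - z₀)) z) :
    (∀ w, fderiv ℝ f z w = inner ℝ p w) ∧ ∀ w, 0 ≤ D2 f z w w := by
  have hlin : ∀ y : V n, HasFDerivAt (fun y => innerSL ℝ p (y - z₀)) (innerSL ℝ p) y := by
    intro y
    exact (innerSL ℝ p).hasFDerivAt.comp y ((hasFDerivAt_id y).sub_const z₀)
  have hg : ∀ᶠ y in 𝓝 z, HasFDerivAt (fun y => f y - innerSL ℝ p (y - z₀))
      (fderiv ℝ f y - innerSL ℝ p) y := by
    filter_upwards [ABP_ev hu] with y hy
    exact hy.hasFDerivAt.sub (hlin y)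
  have h0 : fderiv ℝ f z - innerSL ℝ p = 0 := h.hasFDerivAt_eq_zero hg.self_of_nhds
  refine ⟨fun w => ?_, fun w => ?_⟩
  · rw [sub_eq_zero.mp h0]
    rfl
  by_contra hc
  push Not at hc
  have hl : ∀ t : ℝ, HasDerivAt (fun t : ℝ => z + t • w) w t := by
    intro t
    have := ((hasDerivAt_id t).smul_const w).const_add z
    simpa using this
  have hl0 : Tendsto (fun t : ℝ => z + t • w) (𝓝 0) (𝓝 z) := by
    have := (hl 0).continuousAt.tendsto
    simpa using this
  have hz0 : z + (0 : ℝ) • w = z := by simp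
  set u : V n → ℝ := fun y => f y - innerSL ℝ p (y - z₀) with hudef
  have h1 : ∀ᶠ t in 𝓝 (0 : ℝ), HasDerivAt (fun t : ℝ => u (z + t • w))
      ((fderiv ℝ f (z + t • w) - innerSL ℝ p) w) t := by
    filter_upwards [hl0.eventually hg] with t ht
    exact ht.comp_hasDerivAt t (hl t)
  have h2 : deriv (fun t : ℝ => u (z + t • w)) =ᶠ[𝓝 0]
      fun t => (fderiv ℝ f (z + t • w) - innerSL ℝ p) w :=
    h1.mono fun t ht => ht.deriv
  have h3 : HasDerivAt (fun t : ℝ => (fderiv ℝ f (z + t • w) - innerSL ℝ p) w) (D2 f z w w) 0 := by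
    have h4 : HasFDerivAt (fderiv ℝ f) (fderiv ℝ (fderiv ℝ f) z) (z + (0 : ℝ) • w) := by
      rw [hz0]
      exact (ABP_ct hu).hasFDerivAt
    have h5 := (h4.comp_hasDerivAt (0 : ℝ) (hl 0)).sub_const (innerSL ℝ p)
    have h6 := h5.clm_apply (hasDerivAt_const (0 : ℝ) w)
    rw [map_zero, add_zero] at h6
    exact h6
  have h4 : deriv (deriv (fun t : ℝ => u (z + t • w))) 0 = D2 f z w w := by
    rw [h2.deriv_eq, h3.deriv]
  have hmin : IsLocalMin (fun t : ℝ => u (z + t • w)) 0 := by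
    have h5 := hl0.eventually h
    unfold IsLocalMin IsMinFilter
    filter_upwards [h5] with t ht
    rw [hz0]
    exact ht
  have hmax : IsLocalMax (fun t : ℝ => u (z + t • w)) 0 := by
    have h5 : IsLocalMin (fun t : ℝ => -u (z + t • w)) 0 := by
      have hneg : deriv (fun t : ℝ => -u (z + t • w)) = fun t => -deriv (fun t : ℝ => u (z + t • w)) t := by
        funext t
        exact deriv.neg
      refine isLocalMin_of_deriv_deriv_pos ?_ ?_ ?_
      · rw [hneg]
        have h6 : deriv (fun t => -deriv (fun t : ℝ => u (z + t • w)) t) 0 =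
            -deriv (deriv (fun t : ℝ => u (z + t • w))) 0 := deriv.neg
        rw [h6, h4]
        linarith
      · rw [hneg]
        simp only [hmin.deriv_eq_zero, neg_zero]
      · exact (h1.self_of_nhds).continuousAt.neg
    have h6 := h5.neg
    simpa using h6
  have hcst : (fun t : ℝ => u (z + t • w)) =ᶠ[𝓝 0] fun _ => u (z + (0 : ℝ) • w) := by
    filter_upwards [hmax, hmin] with t h5 h6
    exact le_antisymm h5 h6
  have h7 : deriv (deriv (fun t : ℝ => u (z + t • w))) 0 = 0 := by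
    rw [hcst.deriv.deriv_eq]
    simp
  rw [h4] at h7
  linarith

/-- the real gradient isomorphism -/
private noncomputable def ABP_sharp (n : ℕ) : (V n →L[ℝ] ℝ) →L[ℝ] V n :=
  LinearMap.mkContinuous
    { toFun := fun l => (InnerProductSpace.toDual ℝ (V n)).symm l
      map_add' := fun l l' => map_add _ l l'
      map_smul' := fun c l => by
        simp only [LinearIsometryEquiv.map_smulₛₗ, RingHom.id_apply]
        rfl } 1
    (fun l => by
      simp only [LinearMap.coe_mk, AddHom.coe_mk, LinearIsometryEquiv.norm_map, one_mul, le_refl])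

private theorem ABP_sharp_inner (l : V n →L[ℝ] ℝ) (w : V n) :
    inner ℝ (ABP_sharp n l) w = l w :=
  InnerProductSpace.toDual_symm_apply

private theorem ABP_sharp_eq {l : V n →L[ℝ] ℝ} {p : V n} (h : ∀ w, l w = inner ℝ p w) :
    ABP_sharp n l = p := by
  refine ext_inner_right ℝ fun w => ?_
  rw [ABP_sharp_inner, h w]

private theorem ABP_det {f : V n → ℝ} {z : V n} {m : ℝ} (hu : ContDiffAt ℝ 2 f z)
    (h : ∀ w, 0 ≤ D2 f z w w) (hm : (hess f z).det.re ≤ m) :
    |((ABP_sharp n).comp (fderiv ℝ (fderiv ℝ f) z)).det| ≤ 4 ^ n * m ^ 2 := by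
  have hL : ∀ v w, inner ℝ (((ABP_sharp n).comp (fderiv ℝ (fderiv ℝ f) z)) v) w = D2 f z v w := by
    intro v w
    rw [ContinuousLinearMap.comp_apply, ABP_sharp_inner]
    rfl
  have hherm := hess_isHermitian hu
  have hpsd : (hess f z).PosSemidef := by
    rw [posSemidef_iff_lf hherm]
    intro v
    rw [← lev_eq_lf hu]
    unfold lev
    have h1 := h v
    have h2 := h (Complex.I • v)
    linarith
  have hdet0 : 0 ≤ (hess f z).det.re := (Complex.nonneg_iff.mp hpsd.det_nonneg).1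
  refine (det_real_le ?_ ?_ hherm ?_).trans ?_
  · intro v w
    rw [hL, real_inner_comm, hL]
    exact D2_symm hu v w
  · intro v
    rw [hL]
    exact h v
  · intro v
    rw [hL, hL, ← lev_eq_lf hu]
    rfl
  · exact mul_le_mul_of_nonneg_left (pow_le_pow_left₀ hdet0 hm 2) (by positivity)

theorem abp_local (hn : 0 < n) (K : ℕ) {ε m : ℝ} (hε : 0 < ε) (hm : 0 ≤ m) :
    ∃ c : ℝ, 0 < c ∧ ∀ (z₀ : V n) (O : Set (V n)) (v : V n → ℝ) (Ok : Fin K → Set (V n))
      (vk : Fin K → V n → ℝ), IsOpen O → z₀ ∈ O →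
      (∀ s : ℝ, IsCompact {z | z ∈ Metric.closedBall z₀ 1 ∧ z ∈ O ∧ v z ≤ s}) →
      ContinuousOn v O → (∀ z ∈ Metric.closedBall z₀ 1, z ∈ O → v z₀ ≤ v z) →
      (∀ k, IsOpen (Ok k)) → (∀ k, Ok k ⊆ O) → (∀ k, ContDiffOn ℝ (⊤ : ℕ∞) (vk k) (Ok k)) →
      (∀ k, ∀ z ∈ Ok k, v z ≤ vk k z) → (∀ z ∈ O, ∃ k, z ∈ Ok k ∧ v z = vk k z) →
      (∀ k, ∀ z ∈ Ok k, z ∈ Metric.ball z₀ 1 →
        (∀ w : V n, 0 ≤ D2 (fun y => vk k y + ε / 2 * ‖y - z₀‖ ^ 2) z w w) →
        (hess (fun y => vk k y + ε / 2 * ‖y - z₀‖ ^ 2) z).det.re ≤ m) →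
      ENNReal.ofReal c ≤ volume {z | z ∈ Metric.ball z₀ 1 ∧ z ∈ O ∧ v z ≤ v z₀ + ε} := by
  have hvol : 0 < (volume (Metric.closedBall (0 : V n) (ε / 4))).toReal := by
    refine ENNReal.toReal_pos (Metric.measure_closedBall_pos volume _ (by positivity)).ne' ?_
    exact measure_closedBall_lt_top.ne
  refine ⟨(volume (Metric.closedBall (0 : V n) (ε / 4))).toReal / (K * (4 ^ n * m ^ 2) + 1),
    by positivity, ?_⟩
  intro z₀ O v Ok vk hO hz₀ hcpt hv hmin hOk hOkO hvk hle heq hdet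
  set f : Fin K → V n → ℝ := fun k y => vk k y + ε / 2 * ‖y - z₀‖ ^ 2 with hf
  have hns : ContDiff ℝ (⊤ : ℕ∞) fun y : V n => ε / 2 * ‖y - z₀‖ ^ 2 :=
    contDiff_const.mul ((contDiff_norm_sq ℝ).comp (contDiff_id.sub contDiff_const))
  have hfs : ∀ k, ContDiffOn ℝ (⊤ : ℕ∞) (f k) (Ok k) := fun k => (hvk k).add hns.contDiffOn
  have hle2 : (2 : WithTop ℕ∞) ≤ ((⊤ : ℕ∞) : WithTop ℕ∞) :=
    WithTop.coe_le_coe.mpr (le_top (a := (2 : ℕ∞)))
  have hfat : ∀ k, ∀ z ∈ Ok k, ContDiffAt ℝ 2 (f k) z := fun k z hz =>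
    ((hfs k).of_le hle2).contDiffAt ((hOk k).mem_nhds hz)
  set Γ : Fin K → Set (V n) := fun k => {z | (z ∈ Metric.ball z₀ 1 ∧ z ∈ Ok k) ∧
    v z ≤ v z₀ + ε ∧ ∀ w, 0 ≤ D2 (f k) z w w} with hΓ
  set G : Fin K → V n → V n := fun k y => ABP_sharp n (fderiv ℝ (f k) y) with hG
  -- measurability of the contact sets
  have hmeas : ∀ k, MeasurableSet (Γ k) := by
    intro k
    set S : Set (V n) := Metric.ball z₀ 1 ∩ Ok k with hS
    have hSo : IsOpen S := Metric.isOpen_ball.inter (hOk k)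
    have h1 : IsOpen (S ∩ v ⁻¹' Ioi (v z₀ + ε)) :=
      (hv.mono (inter_subset_right.trans (hOkO k))).isOpen_inter_preimage hSo isOpen_Ioi
    have h2 : ∀ w, IsOpen (S ∩ (fun z => D2 (f k) z w w) ⁻¹' Iio 0) := by
      intro w
      have hc : ContinuousOn (fun z => D2 (f k) z w w) (Ok k) := by
        have h3 : ContDiffOn ℝ 1 (fderiv ℝ (f k)) (Ok k) :=
          ((hfs k).of_le hle2).fderiv_of_isOpen (hOk k) (by norm_num)
        have h4 : ContDiffOn ℝ 0 (fderiv ℝ (fderiv ℝ (f k))) (Ok k) :=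
          h3.fderiv_of_isOpen (hOk k) (by norm_num)
        exact ((h4.clm_apply contDiffOn_const).clm_apply contDiffOn_const).continuousOn
      exact (hc.mono inter_subset_right).isOpen_inter_preimage hSo isOpen_Iio
    have h3 : Γ k = S \ ((S ∩ v ⁻¹' Ioi (v z₀ + ε)) ∪
        ⋃ w, (S ∩ (fun z => D2 (f k) z w w) ⁻¹' Iio 0)) := by
      ext z
      simp only [hΓ, Set.mem_sdiff, mem_union, mem_iUnion, mem_inter_iff, mem_preimage, mem_Ioi, mem_Iio,
        hS]
      constructor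
      · rintro ⟨hz, h4, h5⟩
        refine ⟨hz, ?_⟩
        rintro (⟨-, h6⟩ | ⟨w, -, h6⟩)
        · linarith
        · linarith [h5 w]
      · rintro ⟨hz, h4⟩
        refine ⟨hz, ?_, fun w => ?_⟩
        · by_contra h5
          exact h4 (Or.inl ⟨hz, not_le.mp h5⟩)
        · by_contra h5
          exact h4 (Or.inr ⟨w, hz, not_le.mp h5⟩)
    rw [h3]
    exact hSo.measurableSet.diff (h1.union (isOpen_iUnion h2)).measurableSet
  -- covering
  have hcov : Metric.closedBall (0 : V n) (ε / 4) ⊆ ⋃ k, G k '' Γ k := by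
    intro p hp
    have hp' : ‖p‖ ≤ ε / 4 := by simpa using hp
    set h : V n → ℝ := fun z => v z + ε / 2 * ‖z - z₀‖ ^ 2 - innerSL ℝ p (z - z₀) with hh
    set T : Set (V n) := {z | z ∈ Metric.closedBall z₀ 1 ∧ z ∈ O ∧ v z ≤ v z₀ + ε / 4} with hT
    have hTc : IsCompact T := hcpt _
    have hz₀T : z₀ ∈ T := ⟨Metric.mem_closedBall_self zero_le_one, hz₀, by linarith⟩
    have hhc : ContinuousOn h T := by
      refine ((hv.mono fun z hz => hz.2.1).add ?_).sub ?_
      · fun_prop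
      · fun_prop
    have hin : ∀ z ∈ Metric.closedBall z₀ 1, innerSL ℝ p (z - z₀) ≤ ε / 4 := by
      intro z hz
      have h1 : ‖z - z₀‖ ≤ 1 := by rwa [← dist_eq_norm]
      calc innerSL ℝ p (z - z₀) ≤ ‖p‖ * ‖z - z₀‖ := real_inner_le_norm p (z - z₀)
        _ ≤ ε / 4 * 1 := mul_le_mul hp' h1 (norm_nonneg _) (by positivity)
        _ = ε / 4 := mul_one _
    have hh₀ : h z₀ = v z₀ := by simp [hh]
    obtain ⟨zc, hzcT, hzc⟩ := hTc.exists_isMinOn ⟨z₀, hz₀T⟩ hhc
    have hmin' : ∀ z ∈ Metric.closedBall z₀ 1, z ∈ O → h zc ≤ h z := by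
      intro z hz hzO
      by_cases hzT : z ∈ T
      · exact hzc hzT
      · have h1 : v z₀ + ε / 4 < v z := by
          by_contra hcon
          exact hzT ⟨hz, hzO, not_lt.mp hcon⟩
        have h2 := hin z hz
        have h3 : 0 ≤ ε / 2 * ‖z - z₀‖ ^ 2 := by positivity
        have h4 : h zc ≤ h z₀ := hzc hz₀T
        simp only [hh] at h4 ⊢
        simp only [sub_self, norm_zero, map_zero] at h4
        linarith
    have hzcle : h zc ≤ v z₀ := by rw [← hh₀]; exact hzc hz₀T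
    have hball : zc ∈ Metric.ball z₀ 1 := by
      by_contra hcon
      have h1 : ‖zc - z₀‖ = 1 := by
        have h2 := Metric.mem_closedBall.mp hzcT.1
        have h3 := not_lt.mp fun h4 => hcon (Metric.mem_ball.mpr h4)
        rw [← dist_eq_norm]
        exact le_antisymm h2 h3
      have h2 := hin zc hzcT.1
      have h3 := hmin zc hzcT.1 hzcT.2.1
      simp only [hh, h1] at hzcle
      linarith
    obtain ⟨k, hk, hkeq⟩ := heq zc hzcT.2.1
    have hlocmin : IsLocalMin (fun y => f k y - innerSL ℝ p (y - z₀)) zc := by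
      filter_upwards [(Metric.isOpen_ball.inter (hOk k)).mem_nhds ⟨hball, hk⟩] with y hy
      have h1 := hmin' y (Metric.ball_subset_closedBall hy.1) (hOkO k hy.2)
      have h2 := hle k y hy.2
      simp only [hh] at h1
      simp only [hf]
      linarith
    obtain ⟨h1, h2⟩ := ABP_crit (hfat k zc hk) hlocmin
    refine mem_iUnion.mpr ⟨k, zc, ⟨⟨hball, hk⟩, ?_, h2⟩, ABP_sharp_eq h1⟩
    linarith [hzcT.2.2]
  -- area formula
  have himg : ∀ k, volume (G k '' Γ k) ≤ ENNReal.ofReal (4 ^ n * m ^ 2) *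
      volume {z | z ∈ Metric.ball z₀ 1 ∧ z ∈ O ∧ v z ≤ v z₀ + ε} := by
    intro k
    have hder : ∀ z ∈ Γ k, HasFDerivWithinAt (G k)
        ((ABP_sharp n).comp (fderiv ℝ (fderiv ℝ (f k)) z)) (Γ k) z := by
      intro z hz
      have h1 := (ABP_ct (hfat k z hz.1.2)).hasFDerivAt
      exact ((ABP_sharp n).hasFDerivAt.comp z h1).hasFDerivWithinAt
    calc volume (G k '' Γ k)
        ≤ ∫⁻ z in Γ k, ENNReal.ofReal
            |((ABP_sharp n).comp (fderiv ℝ (fderiv ℝ (f k)) z)).det| ∂volume :=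
          addHaar_image_le_lintegral_abs_det_fderiv volume (hmeas k) hder
      _ ≤ ∫⁻ _ in Γ k, ENNReal.ofReal (4 ^ n * m ^ 2) ∂volume := by
          refine setLIntegral_mono' (hmeas k) fun z hz => ?_
          exact ENNReal.ofReal_le_ofReal (ABP_det (hfat k z hz.1.2) hz.2.2
            (hdet k z hz.1.2 hz.1.1 hz.2.2))
      _ = ENNReal.ofReal (4 ^ n * m ^ 2) * volume (Γ k) := by
          rw [setLIntegral_const]
      _ ≤ _ := by
          gcongr
          intro z hz
          exact ⟨hz.1.1, hOkO k hz.1.2, hz.2.1⟩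
  set Vol := volume {z | z ∈ Metric.ball z₀ 1 ∧ z ∈ O ∧ v z ≤ v z₀ + ε} with hVol
  have hVfin : Vol ≠ ⊤ := by
    have h1 : Vol ≤ volume (Metric.ball z₀ 1) := measure_mono fun z hz => hz.1
    exact (h1.trans_lt measure_ball_lt_top).ne
  have htot : volume (Metric.closedBall (0 : V n) (ε / 4)) ≤
      (K : ENNReal) * (ENNReal.ofReal (4 ^ n * m ^ 2) * Vol) := by
    calc volume (Metric.closedBall (0 : V n) (ε / 4)) ≤ volume (⋃ k, G k '' Γ k) :=
          measure_mono hcov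
      _ ≤ ∑ k, volume (G k '' Γ k) := measure_iUnion_fintype_le _ _
      _ ≤ ∑ _k : Fin K, ENNReal.ofReal (4 ^ n * m ^ 2) * Vol := Finset.sum_le_sum fun k _ => himg k
      _ = _ := by simp
  have hreal : (volume (Metric.closedBall (0 : V n) (ε / 4))).toReal ≤
      K * (4 ^ n * m ^ 2 * Vol.toReal) := by
    have h1 := ENNReal.toReal_mono (by
      refine ENNReal.mul_ne_top (ENNReal.natCast_ne_top K) (ENNReal.mul_ne_top ENNReal.ofReal_ne_top hVfin)) htot
    rw [ENNReal.toReal_mul, ENNReal.toReal_mul, ENNReal.toReal_natCast,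
      ENNReal.toReal_ofReal (by positivity)] at h1
    exact h1
  rw [ENNReal.ofReal_le_iff_le_toReal hVfin, div_le_iff₀ (by positivity)]
  have h1 : 0 ≤ Vol.toReal := ENNReal.toReal_nonneg
  linarith

end Pool.Agent.Helper29.AM
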