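import Pool.Agent.Helper29.AM.PE1
import Pool.Agent.Helper29.AM.GA5
import Pool.Agent.Helper29.AM.Core0
import Pool.Agent.Helper61.AM.ABP

/-!
# Project AM, block 8E: uniform lower bound (8.3)

`v = φ - ψ2` on `D`; `ψ - C' ≤ φ` on `D` (`Nice.mem_St`, `Sol.max`, `le_on_of_ae`), so `v ≥ a₀ log(-ψ) - C'` and the sublevel sets of `v`
in `D` are compact. Let `x₀` be a minimum point, `x₀ ∈ B_i(1)`, `z₀ = e_i x₀`. `abp_local` on the chart `i` with `O = Om D i`,
`v = lc i (φ - ψ2)`, `Ok k` the part of the chart over `D_k`, `vk = lc i (φ - ψ_k)`; for `z ∈ Ok k` with `D²v~_k ≥ 0`,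
`hess v~_k = hess (pot i φ) - (hess (pot i ψ_k) - ε/2)`, so `0 ≤ hess v~_k ≤ hess (pot i φ)` and `det_mono`.
The volume bound gives `(-v(x₀) - ε) cn cf c ≤ ∫ (|φ| + |ψ2|) dμ ≤ J`.
-/

set_option autoImplicit false

namespace Pool.Agent.Helper29.AM

open MeasureTheory Set Filter Topology
open scoped ComplexOrder

variable {n : ℕ}

namespace Atl

variable {X : Type} [TopologicalSpace X] [MeasurableSpace X] {N : ℕ} (A : Atl X n N)
variable [CompactSpace X] [T2Space X] [BorelSpace X]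

private theorem kcx_int61 {ε : ℝ} {ψ : X → ℝ} (h : A.KCX ε ψ) : Integrable ψ A.μ := by
  refine A.integrable_of_local fun i => ?_
  have h1 : LocallyIntegrableOn (fun z => A.pot i ψ z - ε * ‖z‖ ^ 2) (B3 n) volume := (h i).int
  have h2 : LocallyIntegrableOn (fun z : V n => ε * ‖z‖ ^ 2 - A.g i z) (B3 n) volume := by
    refine ContinuousOn.locallyIntegrableOn ?_ Metric.isOpen_ball.measurableSet
    refine ContinuousOn.sub (by fun_prop) ?_
    exact (A.g_smooth i).continuousOn.mono (A.B3_subset i)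
  have h3 := h1.add h2
  refine h3.congr (Eventually.of_forall fun z => ?_)
  change A.g i z + A.lc i ψ z - ε * ‖z‖ ^ 2 + (ε * ‖z‖ ^ 2 - A.g i z) = A.lc i ψ z
  ring

private theorem two_le61' : (2 : WithTop ℕ∞) ≤ ((⊤ : ℕ∞) : WithTop ℕ∞) :=
  WithTop.coe_le_coe.2 (le_top : (2 : ℕ∞) ≤ ⊤)

/-- the determinant estimate at a contact point -/
private theorem det_le61 {D : Set X} (hD : IsOpen D) {O : Set X} (hO : IsOpen O) {ε : ℝ} (hε : 0 < ε)
    {φ q : X → ℝ} (hφ : A.SmoothOn D φ) (hq : A.SmoothOn O q) (i : Fin N) {z z₀ : V n}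
    (hzD : z ∈ A.Om D i) (hzO : z ∈ A.Om O i)
    (hlev : ∀ w : V n, ε * ‖w‖ ^ 2 ≤ lev (A.pot i q) z w)
    (h : ∀ w : V n, 0 ≤ D2 (fun y => A.lc i (fun x => φ x - q x) y + ε / 2 * ‖y - z₀‖ ^ 2) z w w) :
    (hess (fun y => A.lc i (fun x => φ x - q x) y + ε / 2 * ‖y - z₀‖ ^ 2) z).det.re ≤
      (hess (A.pot i φ) z).det.re := by
  have c1 : ContDiffAt ℝ 2 (A.pot i φ) z :=
    ((((SmoothOn.pot A hφ i).mono inter_subset_right).contDiffAt
      ((A.isOpen_Om hD i).mem_nhds hzD))).of_le two_le61'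
  have c2 : ContDiffAt ℝ 2 (A.pot i q) z :=
    ((((SmoothOn.pot A hq i).mono inter_subset_right).contDiffAt
      ((A.isOpen_Om hO i).mem_nhds hzO))).of_le two_le61'
  have c3 : ContDiffAt ℝ 2 (fun y : V n => ‖y - z₀‖ ^ 2) z :=
    ((contDiff_norm_sq ℝ (n := 2)).comp (contDiff_id.sub contDiff_const)).contDiffAt
  have c2' : ContDiffAt ℝ 2 (fun y => (-1 : ℝ) * A.pot i q y) z := contDiffAt_const.mul c2
  have c3' : ContDiffAt ℝ 2 (fun y : V n => ε / 2 * ‖y - z₀‖ ^ 2) z := contDiffAt_const.mul c3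
  have c4 : ContDiffAt ℝ 2 (fun y => A.pot i φ y + (-1 : ℝ) * A.pot i q y) z := c1.add c2'
  have e1 : (fun y => A.lc i (fun x => φ x - q x) y + ε / 2 * ‖y - z₀‖ ^ 2) =
      fun y => (fun y => A.pot i φ y + (-1 : ℝ) * A.pot i q y) y + (fun y => ε / 2 * ‖y - z₀‖ ^ 2) y := by
    funext y
    unfold pot lc
    ring
  have c5 : ContDiffAt ℝ 2 (fun y => A.lc i (fun x => φ x - q x) y + ε / 2 * ‖y - z₀‖ ^ 2) z := by
    rw [e1]
    exact c4.add c3'
  have e2 : hess (fun y => A.lc i (fun x => φ x - q x) y + ε / 2 * ‖y - z₀‖ ^ 2) z =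
      hess (A.pot i φ) z + ((-1 : ℝ) : ℂ) • hess (A.pot i q) z + ((ε / 2 : ℝ) : ℂ) • (1 : Mat n) := by
    rw [e1, hess_add c4 c3', hess_add c1 c2', hess_const_mul (-1) c2, hess_const_mul (ε / 2) c3,
      hess_normSq]
  refine det_mono ?_ ?_
  · rw [posSemidef_iff_lf (hess_isHermitian c5)]
    intro w
    rw [← lev_eq_lf c5]
    unfold lev
    have h1 := h w
    have h2 := h (Complex.I • w)
    linarith
  · have hH : (hess (A.pot i φ) z - hess (fun y => A.lc i (fun x => φ x - q x) y +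
        ε / 2 * ‖y - z₀‖ ^ 2) z).IsHermitian := (hess_isHermitian c1).sub (hess_isHermitian c5)
    rw [posSemidef_iff_lf hH]
    intro w
    have e3 : hess (A.pot i φ) z - hess (fun y => A.lc i (fun x => φ x - q x) y +
        ε / 2 * ‖y - z₀‖ ^ 2) z = hess (A.pot i q) z + ((-(ε / 2) : ℝ) : ℂ) • (1 : Mat n) := by
      rw [e2]
      push_cast
      rw [neg_one_smul, neg_smul]
      abel
    rw [e3, lf_add, lf_smul, lf_one, ← lev_eq_lf c2]
    have h1 := hlev w
    have h2 : 0 ≤ ε * ‖w‖ ^ 2 := by positivity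
    linarith

private theorem chebyshev61 (i : Fin N) {cf κ c J : ℝ} (hcf : 0 < cf)
    (hf : ∀ z : V n, ‖z‖ ≤ 4 → cf ≤ A.f i z) (hκ : 0 < κ) (hc : 0 < c) {S : Set (V n)} (hS : MeasurableSet S)
    (hS3 : S ⊆ B3 n) (hSc : ENNReal.ofReal c ≤ volume S) {h : X → ℝ} (hi : Integrable h A.μ)
    (h0 : ∀ x, 0 ≤ h x) (hJ : ∫ x, h x ∂A.μ ≤ J) (hh : ∀ z ∈ S, κ ≤ A.lc i h z) :
    κ * (cn n * cf * c) ≤ J := by
  have hfin : IsFiniteMeasure A.μ := A.isFiniteMeasure
  obtain ⟨T, hT⟩ : ∃ T : Set X, T = (A.e i).source ∩ (A.e i) ⁻¹' S := ⟨_, rfl⟩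
  have hSt : S ⊆ (A.e i).target := hS3.trans (A.B3_subset i)
  have hTm : MeasurableSet T := by
    rw [hT]
    have h1 : (A.e i).source ∩ (A.e i) ⁻¹' S = Subtype.val '' ((fun x : (A.e i).source => A.e i x) ⁻¹' S) := by
      ext x
      constructor
      · rintro ⟨hx, hx2⟩
        exact ⟨⟨x, hx⟩, hx2, rfl⟩
      · rintro ⟨⟨y, hy⟩, hy2, rfl⟩
        exact ⟨hy, hy2⟩
    rw [h1]
    refine (MeasurableEmbedding.subtype_coe (A.e i).open_source.measurableSet).measurableSet_image' ?_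
    exact (continuousOn_iff_continuous_domRestrict.1 (A.e i).continuousOn).measurable hS
  have hTS : (A.e i).target ∩ (A.e i).symm ⁻¹' T = S := by
    ext z
    constructor
    · rintro ⟨hz, hz2⟩
      change (A.e i).symm z ∈ T at hz2
      rw [hT] at hz2
      have h1 : A.e i ((A.e i).symm z) ∈ S := hz2.2
      rwa [(A.e i).right_inv hz] at h1
    · intro hz
      refine ⟨hSt hz, ?_⟩
      change (A.e i).symm z ∈ T
      rw [hT]
      refine ⟨(A.e i).map_target (hSt hz), ?_⟩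
      change A.e i ((A.e i).symm z) ∈ S
      rwa [(A.e i).right_inv (hSt hz)]
  have hTs : T ⊆ (A.e i).source := by
    rw [hT]
    exact inter_subset_left
  have hVfin : volume S < ⊤ := (measure_mono hS3).trans_lt measure_ball_lt_top
  have h1 : κ * (cn n * cf * c) ≤ ∫ z in S, κ * (cn n * A.f i z) := by
    have h2 : ∫ z in S, κ * (cn n * cf) ≤ ∫ z in S, κ * (cn n * A.f i z) := by
      have hfb : IntegrableOn (fun z => κ * (cn n * A.f i z)) S volume := by
        have h3 : IntegrableOn (fun z => κ * (cn n * A.f i z)) (Metric.closedBall 0 3) volume := by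
          refine ContinuousOn.integrableOn_compact (isCompact_closedBall _ _) ?_
          refine continuousOn_const.mul (continuousOn_const.mul ((A.f_smooth i).continuousOn.mono ?_))
          intro z hz
          exact A.mem_target_of_norm_le (by linarith [mem_closedBall_zero_iff.1 hz])
        exact h3.mono_set (hS3.trans Metric.ball_subset_closedBall)
      refine setIntegral_mono_on (integrableOn_const hVfin.ne) hfb hS fun z hz => ?_
      have h4 := hf z (by linarith [mem_ball_zero_iff.1 (hS3 hz)])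
      exact mul_le_mul_of_nonneg_left (mul_le_mul_of_nonneg_left h4 (cn_pos n).le) hκ.le
    refine le_trans ?_ h2
    rw [setIntegral_const, smul_eq_mul]
    have h5 : c ≤ volume.real S := by
      have h6 := ENNReal.toReal_mono hVfin.ne hSc
      rwa [ENNReal.toReal_ofReal hc.le] at h6
    have h7 : 0 ≤ κ * (cn n * cf) := by
      have := cn_pos n
      positivity
    nlinarith [mul_le_mul_of_nonneg_right h5 h7]
  have h2 : ∫ z in S, κ * (cn n * A.f i z) = ∫ x in T, κ ∂A.μ := by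
    rw [A.setIntegral_chart i hTm hTs (fun _ => κ), hTS]
    rfl
  have h3 : ∫ x in T, κ ∂A.μ ≤ ∫ x in T, h x ∂A.μ := by
    refine setIntegral_mono_on (integrableOn_const (measure_ne_top _ _)) hi.integrableOn hTm fun x hx => ?_
    rw [hT] at hx
    have h4 := hh (A.e i x) hx.2
    unfold lc at h4
    rwa [(A.e i).left_inv hx.1] at h4
  have h4 : ∫ x in T, h x ∂A.μ ≤ ∫ x, h x ∂A.μ :=
    setIntegral_le_integral hi (Eventually.of_forall h0)
  linarith

theorem exists_lower (hn : 0 < n) {D : Set X} {ψ ψ2 : X → ℝ} {ε a₀ : ℝ}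
    (hψ : A.NicePair D ψ ψ2 ε a₀) (Cu J : ℝ) :
    ∃ C₀ : ℝ, ∀ τ : ℝ, 0 < τ → τ ≤ 1 → ∀ (C : ℝ) (φ : X → ℝ), 0 ≤ C → A.Sol D τ C φ →
      (∀ x ∈ D, φ x ≤ Cu) → ∫ x, |φ x| ∂A.μ ≤ J → ∀ x ∈ D, ψ2 x - C₀ ≤ φ x := by
  obtain ⟨cf, Cf, hcf, hCf, hf⟩ := A.exists_f_bounds
  obtain ⟨K, Dk, ψk, hDo, hDD, hDs, hDle, hDex, hDlev⟩ := hψ.nice2.pieces
  have hD := hψ.nice.isOpen
  have hε := hψ.nice.eps
  have ha := hψ.pos
  have hm : 0 ≤ Real.exp |Cu| * Cf := by positivity
  obtain ⟨c, hc, habp⟩ := abp_local hn K hε hm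
  obtain ⟨J2, hJ2⟩ : ∃ J2, J2 = ∫ x, |ψ2 x| ∂A.μ := ⟨_, rfl⟩
  have hψ2i : Integrable ψ2 A.μ := A.kcx_int61 hψ.nice2.kcx
  have hden : 0 < cn n * cf * c := by
    have := cn_pos n
    positivity
  refine ⟨ε + (J + J2) / (cn n * cf * c), fun τ hτ hτ1 C φ hC hS hCu hJ x hx => ?_⟩
  have hJ0 : 0 ≤ J := (integral_nonneg fun x => abs_nonneg _).trans hJ
  have hJ20 : 0 ≤ J2 := by
    rw [hJ2]
    exact integral_nonneg fun x => abs_nonneg _
  have hφc : ContinuousOn φ D := SmoothOn.continuousOn A hS.smooth hD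
  have hφi : Integrable φ A.μ := St.integrable A hS.st
  obtain ⟨C', -, hC'⟩ := Nice.mem_St A hn hψ.nice hτ
  have hge : ∀ y ∈ D, ψ y - C' ≤ φ y := by
    refine A.le_on_of_ae hD (hψ.nice.cont.sub continuousOn_const) hφc ?_
    filter_upwards [hS.max _ (hC' C' le_rfl C hC)] with y hy _
    exact hy
  obtain ⟨v, hv⟩ : ∃ v : X → ℝ, v = fun x => φ x - ψ2 x := ⟨_, rfl⟩
  have hvc : ContinuousOn v D := by
    rw [hv]
    exact hφc.sub hψ.nice2.cont
  have hcpt : ∀ s : ℝ, IsCompact {y | y ∈ D ∧ v y ≤ s} := by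
    intro s
    obtain ⟨j, hj⟩ : ∃ j, j = Real.exp ((s + C') / a₀) := ⟨_, rfl⟩
    have hKj := hψ.nice.cpt j
    have h1 : {y | y ∈ D ∧ v y ≤ s} = {y | y ∈ D ∧ -j ≤ ψ y} ∩ v ⁻¹' Iic s := by
      ext y
      constructor
      · rintro ⟨hy, hys⟩
        refine ⟨⟨hy, ?_⟩, hys⟩
        rw [hv] at hys
        change φ y - ψ2 y ≤ s at hys
        rw [hψ.eq y hy] at hys
        have h2 := hge y hy
        have h3 : a₀ * Real.log (-ψ y) ≤ s + C' := by linarith
        have h4 : Real.log (-ψ y) ≤ (s + C') / a₀ := by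
          rw [le_div_iff₀ ha]
          linarith
        have h5 : 0 < -ψ y := by linarith [hψ.nice.le y]
        have h6 := (Real.log_le_iff_le_exp h5).1 h4
        rw [← hj] at h6
        linarith
      · rintro ⟨⟨hy, -⟩, hys⟩
        exact ⟨hy, hys⟩
    rw [h1]
    refine IsCompact.of_isClosed_subset hKj ?_ inter_subset_left
    exact (hvc.mono fun y hy => hy.1).preimage_isClosed_of_isClosed hKj.isClosed isClosed_Iic
  obtain ⟨x₀, hx₀, hmin⟩ := (hcpt (v x)).exists_isMinOn ⟨x, hx, le_rfl⟩ (hvc.mono fun y hy => hy.1)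
  have hmin' : ∀ y ∈ D, v x₀ ≤ v y := by
    intro y hy
    rcases le_or_gt (v y) (v x) with h | h
    · exact hmin ⟨hy, h⟩
    · exact hx₀.2.trans h.le
  obtain ⟨i, hi, hi1⟩ := A.cover x₀
  obtain ⟨z₀, hz₀⟩ : ∃ z₀, z₀ = A.e i x₀ := ⟨_, rfl⟩
  rw [← hz₀] at hi1
  have hsz : (A.e i).symm z₀ = x₀ := by rw [hz₀, (A.e i).left_inv hi]
  have hball3 : Metric.closedBall z₀ 1 ⊆ B3 n := by
    intro z hz
    rw [Metric.mem_closedBall, dist_eq_norm] at hz
    refine mem_ball_zero_iff.2 ?_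
    have : ‖z‖ ≤ ‖z - z₀‖ + ‖z₀‖ := by
      have h := norm_add_le (z - z₀) z₀
      rwa [sub_add_cancel] at h
    linarith
  have hballt : Metric.closedBall z₀ 1 ⊆ (A.e i).target := hball3.trans (A.B3_subset i)
  have hz₀b : z₀ ∈ Metric.closedBall z₀ 1 := Metric.mem_closedBall_self zero_le_one
  have hz₀O : z₀ ∈ A.Om D i := by
    refine ⟨hball3 hz₀b, hballt hz₀b, ?_⟩
    change (A.e i).symm z₀ ∈ D
    rw [hsz]
    exact hx₀.1
  have hlz : A.lc i v z₀ = v x₀ := by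
    unfold lc
    rw [hsz]
  have hlc : ContinuousOn (A.lc i v) (A.Om D i) := by
    refine hvc.comp ((A.e i).continuousOn_symm.mono fun z hz => hz.2.1) fun z hz => hz.2.2
  have hvol := habp z₀ (A.Om D i) (A.lc i v) (fun k => A.Om (Dk k) i)
    (fun k => A.lc i (fun x => φ x - ψk k x)) (A.isOpen_Om hD i) hz₀O
    (by
      intro s
      have h1 : {z | z ∈ Metric.closedBall z₀ 1 ∧ z ∈ A.Om D i ∧ A.lc i v z ≤ s} =
          Metric.closedBall z₀ 1 ∩ (A.e i).symm ⁻¹' {y | y ∈ D ∧ v y ≤ s} := by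
        ext z
        constructor
        · rintro ⟨hz, hz2, hz3⟩
          exact ⟨hz, hz2.2.2, hz3⟩
        · rintro ⟨hz, hz2⟩
          exact ⟨hz, ⟨hball3 hz, hballt hz, hz2.1⟩, hz2.2⟩
      rw [h1]
      refine IsCompact.of_isClosed_subset (isCompact_closedBall z₀ 1) ?_ inter_subset_left
      exact ((A.e i).continuousOn_symm.mono hballt).preimage_isClosed_of_isClosed
        Metric.isClosed_closedBall (hcpt s).isClosed)
    hlc
    (by
      intro z _ hz
      rw [hlz]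
      exact hmin' _ hz.2.2)
    (fun k => A.isOpen_Om (hDo k) i)
    (fun k z hz => ⟨hz.1, hz.2.1, hDD k hz.2.2⟩)
    (fun k => (((hS.smooth i).mono fun z hz => ⟨hz.2.1, hDD k hz.2.2⟩).sub
      ((hDs k i).mono fun z hz => hz.2)))
    (by
      intro k z hz
      have h1 := hDle k _ hz.2.2
      rw [hv]
      change φ ((A.e i).symm z) - ψ2 ((A.e i).symm z) ≤ φ ((A.e i).symm z) - ψk k ((A.e i).symm z)
      linarith)
    (by
      intro z hz
      obtain ⟨k, hk, hk2⟩ := hDex _ hz.2.2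
      refine ⟨k, ⟨hz.1, hz.2.1, hk⟩, ?_⟩
      rw [hv]
      change φ ((A.e i).symm z) - ψ2 ((A.e i).symm z) = φ ((A.e i).symm z) - ψk k ((A.e i).symm z)
      rw [hk2])
    (by
      intro k z hz _ hD2
      have hzD : z ∈ A.Om D i := ⟨hz.1, hz.2.1, hDD k hz.2.2⟩
      have hz3 : ‖z‖ < 3 := mem_ball_zero_iff.1 hz.1
      refine (A.det_le61 hD (hDo k) hε hS.smooth (hDs k) i hzD hz
        (fun w => hDlev k i z hz.2.1 hz3 hz.2.2 w) hD2).trans ?_
      rw [hS.eq i z hz.2.1 hzD.2.2]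
      refine mul_le_mul (Real.exp_le_exp.2 ?_) (hf i z (by linarith)).2 (A.f_pos i z hz.2.1).le
        (Real.exp_pos _).le
      have h1 : A.lc i φ z ≤ Cu := hCu _ hzD.2.2
      rcases le_or_gt 0 (A.lc i φ z) with h | h
      · calc τ * A.lc i φ z ≤ 1 * A.lc i φ z := mul_le_mul_of_nonneg_right hτ1 h
          _ ≤ |Cu| := by rw [one_mul]; exact h1.trans (le_abs_self _)
      · exact (mul_nonpos_of_nonneg_of_nonpos hτ.le h.le).trans (abs_nonneg _))
  rw [hlz] at hvol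
  -- conclusion
  have hmain : -v x₀ ≤ ε + (J + J2) / (cn n * cf * c) := by
    by_contra hcon
    rw [not_le] at hcon
    have hq0 : 0 ≤ (J + J2) / (cn n * cf * c) := by positivity
    have hκ : 0 < -v x₀ - ε := by linarith
    have h1 := A.chebyshev61 i (cf := cf) (κ := -v x₀ - ε) (c := c) (J := J + J2) hcf
      (fun z hz => (hf i z hz).1) hκ hc
      (S := {z | z ∈ Metric.ball z₀ 1 ∧ z ∈ A.Om D i ∧ A.lc i v z ≤ v x₀ + ε})
      (by
        have h2 : {z | z ∈ Metric.ball z₀ 1 ∧ z ∈ A.Om D i ∧ A.lc i v z ≤ v x₀ + ε} =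
            Metric.ball z₀ 1 ∩ (A.Om D i \ (A.Om D i ∩ A.lc i v ⁻¹' Ioi (v x₀ + ε))) := by
          ext z
          constructor
          · rintro ⟨ha, hb, hc⟩
            exact ⟨ha, hb, fun h => absurd h.2 (not_lt.2 hc)⟩
          · rintro ⟨ha, hb, hc⟩
            exact ⟨ha, hb, not_lt.1 fun h => hc ⟨hb, h⟩⟩
        rw [h2]
        exact Metric.isOpen_ball.measurableSet.inter ((A.isOpen_Om hD i).measurableSet.diff
          (hlc.isOpen_inter_preimage (A.isOpen_Om hD i) isOpen_Ioi).measurableSet))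
      (fun z hz => hz.2.1.1) hvol (h := fun x => |φ x| + |ψ2 x|) (hφi.abs.add hψ2i.abs)
      (fun x => by positivity)
      (by
        rw [integral_add hφi.abs hψ2i.abs, ← hJ2]
        linarith)
      (by
        rintro z ⟨-, -, hz⟩
        change -v x₀ - ε ≤ |φ ((A.e i).symm z)| + |ψ2 ((A.e i).symm z)|
        rw [hv] at hz
        change φ ((A.e i).symm z) - ψ2 ((A.e i).symm z) ≤ _ at hz
        rw [hv]
        have h3 := neg_abs_le (φ ((A.e i).symm z))
        have h4 := le_abs_self (ψ2 ((A.e i).symm z))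
        simp only at hz ⊢
        linarith)
    have h2 : -v x₀ - ε ≤ (J + J2) / (cn n * cf * c) := by
      rw [le_div_iff₀ hden]
      exact h1
    linarith
  have h1 := hmin' x hx
  rw [hv] at h1 hmain
  simp only at h1 hmain
  linarith

end Atl

end Pool.Agent.Helper29.AM
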