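import Pool.Agent.Helper29.AM.Glob

/-!
# Project AM, block 8A: finite measures which agree on the test functions in a chart

`ext_of_tst`: for `K ⊆ U ⊆ G`, `K` compact, `U` open, there is `χ` with `Tst U χ`, `χ = 1` on `K`, `χ ≤ 1`
(`exists_contMDiff_support_eq_eq_one_iff` with the open set `Metric.thickening δ K`, `Metric.cthickening δ K ⊆ U`), so
`μ₁ K ≤ ∫ χ dμ₁ = ∫ χ dμ₂ ≤ μ₂ U`. Outer and inner regularity of finite measures on `V n`: `μ₁ B ≤ μ₂ B` for Borel `B ⊆ G`;
symmetric, so equality.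
`chart_ext`: push forward by `e i` (continuous on its source: `ContinuousOn.aemeasurable`); a Borel set `S ⊆ O` corresponds to
`(e i).target ∩ (e i).symm ⁻¹' S`.
-/

set_option autoImplicit false

namespace Pool.Agent.Helper29.AM

open MeasureTheory Set Filter Topology
open scoped ComplexOrder

variable {n : ℕ}

open scoped Manifold ContDiff in
private theorem cut63 {K W : Set (V n)} (hK : IsCompact K) (hW : IsOpen W) (hKW : K ⊆ W) :
    ∃ χ : V n → ℝ, Tst W χ ∧ (∀ z, χ z ≤ 1) ∧ ∀ z ∈ K, χ z = 1 := by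
  obtain ⟨L, hL, hKL, hLW⟩ := exists_compact_between hK hW hKW
  obtain ⟨f, h1, h2, h3⟩ := exists_contMDiffMap_one_nhds_of_subset_interior (n := (⊤ : ℕ∞)) 𝓘(ℝ, V n) hK.isClosed hKL
  have h4 : tsupport (f : V n → ℝ) ⊆ L := by
    refine closure_minimal (fun z hz => ?_) hL.isClosed
    by_contra h5
    exact hz (h2 z h5)
  exact ⟨f, ⟨contMDiff_iff_contDiff.1 f.contMDiff, hL.of_isClosed_subset (isClosed_tsupport _) h4, h4.trans hLW, fun z => (h3 z).1⟩,
    fun z => (h3 z).2, fun z hz => h1.self_of_nhdsSet z hz⟩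

private theorem le63 {G : Set (V n)} (μ₁ μ₂ : Measure (V n)) [IsFiniteMeasure μ₁]
    [IsFiniteMeasure μ₂] (h : ∀ χ : V n → ℝ, Tst G χ → ∫ z, χ z ∂μ₁ = ∫ z, χ z ∂μ₂) {W : Set (V n)}
    (hW : IsOpen W) (hWG : W ⊆ G) : μ₁ W ≤ μ₂ W := by
  rw [hW.measure_eq_iSup_isCompact]
  refine iSup₂_le fun K hKW => iSup_le fun hK => ?_
  obtain ⟨χ, hχ, hχ1, hχK⟩ := cut63 hK hW hKW
  have hi : ∀ (μ : Measure (V n)) [IsFiniteMeasure μ], Integrable χ μ := fun μ _ =>
    hχ.smooth.continuous.integrable_of_hasCompactSupport hχ.cpt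
  have e1 : ∀ (μ : Measure (V n)) [IsFiniteMeasure μ], ∫⁻ z, ENNReal.ofReal (χ z) ∂μ = ENNReal.ofReal (∫ z, χ z ∂μ) :=
    fun μ _ => (ofReal_integral_eq_lintegral_ofReal (hi μ) (Eventually.of_forall hχ.nonneg)).symm
  calc μ₁ K = ∫⁻ z, K.indicator 1 z ∂μ₁ := (lintegral_indicator_one hK.measurableSet).symm
    _ ≤ ∫⁻ z, ENNReal.ofReal (χ z) ∂μ₁ := by
        refine lintegral_mono fun z => ?_
        by_cases hz : z ∈ K
        · rw [indicator_of_mem hz, hχK z hz, ENNReal.ofReal_one]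
          exact le_rfl
        · rw [indicator_of_notMem hz]
          exact zero_le
    _ = ∫⁻ z, ENNReal.ofReal (χ z) ∂μ₂ := by
        rw [e1, e1, h χ ⟨hχ.smooth, hχ.cpt, hχ.sub.trans hWG, hχ.nonneg⟩]
    _ ≤ ∫⁻ z, W.indicator 1 z ∂μ₂ := by
        refine lintegral_mono fun z => ?_
        by_cases hz : z ∈ W
        · rw [indicator_of_mem hz]
          exact ENNReal.ofReal_le_one.2 (hχ1 z)
        · have h0 : χ z = 0 := image_eq_zero_of_notMem_tsupport fun h5 => hz (hχ.sub h5)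
          rw [h0, ENNReal.ofReal_zero]
          exact zero_le
    _ = μ₂ W := lintegral_indicator_one hW.measurableSet

theorem ext_of_tst {G : Set (V n)} (hG : IsOpen G) (μ₁ μ₂ : Measure (V n)) [IsFiniteMeasure μ₁]
    [IsFiniteMeasure μ₂] (h : ∀ χ : V n → ℝ, Tst G χ → ∫ z, χ z ∂μ₁ = ∫ z, χ z ∂μ₂) :
    μ₁.restrict G = μ₂.restrict G := by
  have key : ∀ W : Set (V n), IsOpen W → μ₁.restrict G W = μ₂.restrict G W := by
    intro W hW
    rw [Measure.restrict_apply hW.measurableSet, Measure.restrict_apply hW.measurableSet]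
    exact le_antisymm (le63 μ₁ μ₂ h (hW.inter hG) inter_subset_right)
      (le63 μ₂ μ₁ (fun χ hχ => (h χ hχ).symm) (hW.inter hG) inter_subset_right)
  exact ext_of_generate_finite {W : Set (V n) | IsOpen W} BorelSpace.measurable_eq isPiSystem_isOpen
    (fun W hW => key W hW) (key univ isOpen_univ)

namespace Atl

variable {X : Type} [TopologicalSpace X] [MeasurableSpace X] {N : ℕ} (A : Atl X n N)

theorem chart_ext [BorelSpace X] (i : Fin N) {O : Set X} (hO : IsOpen O) (hs : O ⊆ (A.e i).source)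
    (m₁ m₂ : Measure X) [IsFiniteMeasure m₁] [IsFiniteMeasure m₂]
    (h : ∀ χ : V n → ℝ, Tst ((A.e i).target ∩ (A.e i).symm ⁻¹' O) χ →
      ∫ x in O, χ (A.e i x) ∂m₁ = ∫ x in O, χ (A.e i x) ∂m₂) :
    m₁.restrict O = m₂.restrict O := by
  have hcO : ContinuousOn (A.e i) O := (A.e i).continuousOn.mono hs
  have hae : ∀ m : Measure X, AEMeasurable (A.e i) (m.restrict O) := fun m => hcO.aemeasurable hO.measurableSet
  set G : Set (V n) := (A.e i).target ∩ (A.e i).symm ⁻¹' O with hG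
  have hGo : IsOpen G := (A.e i).isOpen_inter_preimage_symm hO
  have h1 := ext_of_tst hGo ((m₁.restrict O).map (A.e i)) ((m₂.restrict O).map (A.e i)) (fun χ hχ => by
    rw [integral_map (hae m₁) hχ.smooth.continuous.aestronglyMeasurable,
      integral_map (hae m₂) hχ.smooth.continuous.aestronglyMeasurable]
    exact h χ hχ)
  have hcG : ContinuousOn (A.e i).symm G := (A.e i).symm.continuousOn.mono inter_subset_left
  refine Measure.ext fun S hS => ?_
  set T : Set (V n) := G ∩ (A.e i).symm ⁻¹' S with hT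
  have hTm : MeasurableSet T := by
    have h2 : T = Subtype.val '' ((G.domRestrict (A.e i).symm) ⁻¹' S) := by
      ext z
      constructor
      · rintro ⟨hz, hz'⟩
        exact ⟨⟨z, hz⟩, hz', rfl⟩
      · rintro ⟨⟨z, hz⟩, hz', rfl⟩
        exact ⟨hz, hz'⟩
    rw [h2]
    exact MeasurableSet.subtype_image hGo.measurableSet ((continuousOn_iff_continuous_domRestrict.1 hcG).measurable hS)
  have h3 : ∀ m : Measure X, ((m.restrict O).map (A.e i)).restrict G T = m.restrict O S := by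
    intro m
    rw [Measure.restrict_apply hTm, inter_eq_left.2 (inter_subset_left : T ⊆ G), Measure.map_apply_of_aemeasurable (hae m) hTm,
      Measure.restrict_apply₀' hO.measurableSet.nullMeasurableSet, Measure.restrict_apply hS]
    congr 1
    ext x
    constructor
    · rintro ⟨⟨hx1, hx2⟩, hx3⟩
      refine ⟨?_, hx3⟩
      have h4 : (A.e i).symm (A.e i x) ∈ S := hx2
      rwa [(A.e i).left_inv (hs hx3)] at h4
    · rintro ⟨hx1, hx2⟩
      have h4 : (A.e i).symm (A.e i x) = x := (A.e i).left_inv (hs hx2)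
      refine ⟨⟨⟨(A.e i).map_source (hs hx2), ?_⟩, ?_⟩, hx2⟩
      · show (A.e i).symm (A.e i x) ∈ O
        rwa [h4]
      · show (A.e i).symm (A.e i x) ∈ S
        rwa [h4]
  rw [← h3 m₁, ← h3 m₂, h1]

end Atl

end Pool.Agent.Helper29.AM
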