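import Pool.Agent.Helper29.AM.GA5
import Pool.Agent.Helper29.AM.GS5
import Pool.Agent.Helper61.AM.M1

/-!
# Project AM, block 8B: the mass of the smooth Perron solutions (8.1)

`tendsto_hess_det`: for a smooth psh `u` on an open set `G`, `∫ χ det hess(u * ρ_ε) → ∫ χ det hess u`: `BH.of_smooth`,
`BH.ae_tendsto` and dominated convergence (`BH.hess_Phi`, entries bounded on a compact neighbourhood of `tsupport χ`, `Matrix.det_le`).
`restrict_eq`: on `O_{i,j} = {x ∈ B_i(3) ∩ D : pot i v (e_i x) > -j}` the measure `m` of `HasMA` agrees with `e^{τ v} μ` (`chart_ext`,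
`setIntegral_chart`, uniqueness of limits); the countably many `O_{i,j}` cover `D` (`Measure.restrict_iUnion_congr`).
`Sol.integral_nonpos`: `∫ e^{τφ} dμ ≤ m(X) ≤ μ(X)`, `e^{τφ} ≥ 1 + τφ`.
-/

set_option autoImplicit false

namespace Pool.Agent.Helper29.AM

open MeasureTheory Set Filter Topology
open scoped ComplexOrder

variable {n : ℕ}

private theorem two_le61 : (2 : WithTop ℕ∞) ≤ ((⊤ : ℕ∞) : WithTop ℕ∞) :=
  WithTop.coe_le_coe.2 (le_top : (2 : ℕ∞) ≤ ⊤)

private theorem shr_of61 {G K : Set (V n)} {δ : ℝ} (hKG : Metric.cthickening δ K ⊆ G) {z : V n}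
    (hz : z ∈ K) {ε : ℝ} (hε : ε ≤ δ) : z ∈ shr G ε := by
  intro y hy
  refine hKG (Metric.mem_cthickening_of_dist_le y z δ K hz ?_)
  exact (Metric.mem_closedBall.1 hy).trans hε

private theorem bd61 {G : Set (V n)} (hG : IsOpen G) {u : V n → ℝ} (hu : SPsh G u) {K : Set (V n)}
    (hK : IsCompact K) {δ : ℝ} (hKG : Metric.cthickening δ K ⊆ G) :
    ∃ C : ℝ, 0 ≤ C ∧ ∀ ε, 0 < ε → ε ≤ δ → ∀ z ∈ K, ∀ j k,
      ‖hess (fun y => Phi u y ε) z j k‖ ≤ C := by
  have hu2 : ContDiffOn ℝ 2 u G := hu.smooth.of_le two_le61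
  have hc : ∀ j k, ∃ C : ℝ, ∀ z ∈ Metric.cthickening δ K, ‖hess u z j k‖ ≤ C := fun j k =>
    hK.cthickening.exists_bound_of_continuousOn ((continuousOn_hess hG hu2 j k).mono hKG)
  choose C hC using hc
  obtain ⟨S, hS⟩ : ∃ S : ℝ, S = ∑ j, ∑ k, |C j k| := ⟨_, rfl⟩
  have hS0 : 0 ≤ S := by
    rw [hS]
    exact Finset.sum_nonneg fun j _ => Finset.sum_nonneg fun k _ => abs_nonneg _
  have hCS : ∀ j k, C j k ≤ S := by
    intro j k
    rw [hS]
    refine (le_abs_self _).trans ?_
    refine (Finset.single_le_sum (f := fun k => |C j k|) (fun k _ => abs_nonneg _)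
      (Finset.mem_univ k)).trans ?_
    exact Finset.single_le_sum (f := fun j => ∑ k, |C j k|)
      (fun j _ => Finset.sum_nonneg fun k _ => abs_nonneg _) (Finset.mem_univ j)
  refine ⟨S, hS0, fun ε hε hεδ z hz j k => ?_⟩
  have hzs : ∀ η : V n, ‖η‖ ≤ 1 → z + (sc ε : Lin n) η ∈ Metric.cthickening δ K := by
    intro η hη
    refine Metric.mem_cthickening_of_dist_le _ z δ K hz ?_
    rw [dist_self_add_left, sc_apply, norm_smul, Complex.norm_real, Real.norm_eq_abs, abs_of_pos hε]
    nlinarith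
  have h1 : hess (fun y => Phi u y ε) z = MH (sc ε) (hess u) z :=
    hess_M (sc ε) hG hu2 fun η hη => hKG (hzs η hη)
  rw [h1]
  change ‖∫ η : V n, (rho η : ℂ) * hess u (z + (sc ε : Lin n) η) j k‖ ≤ S
  have h2 : ∫ η : V n, rho η * S = S := by
    rw [integral_mul_const, integral_rho, one_mul]
  rw [← h2]
  refine norm_integral_le_of_norm_le (rho_integrable.mul_const S) (Eventually.of_forall fun η => ?_)
  rw [norm_mul, Complex.norm_real, Real.norm_of_nonneg (rho_nonneg η)]
  rcases le_or_gt 1 ‖η‖ with h | h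
  · rw [rho_eq_zero h, zero_mul, zero_mul]
  · exact mul_le_mul_of_nonneg_left ((hC j k _ (hzs η h.le)).trans (hCS j k)) (rho_nonneg η)

private theorem det_bd61 {H : Mat n} {C : ℝ} (h : ∀ j k, ‖H j k‖ ≤ C) :
    |H.det.re| ≤ n.factorial * C ^ n := by
  have h1 := Matrix.det_le (A := H) (abv := IsAbsoluteValue.toAbsoluteValue (norm : ℂ → ℝ)) (x := C) h
  rw [Fintype.card_fin, nsmul_eq_mul] at h1
  exact (Complex.abs_re_le_norm _).trans h1

theorem tendsto_hess_det {G : Set (V n)} (hG : IsOpen G) {u : V n → ℝ} (hu : SPsh G u)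
    {χ : V n → ℝ} (hχ : Tst G χ) (c : ℝ) :
    Tendsto (fun ε : ℝ => ∫ z, χ z * (c * (hess (fun y => Phi u y ε) z).det.re)) (𝓝[>] 0)
      (𝓝 (∫ z, χ z * (c * (hess u z).det.re))) := by
  obtain ⟨δ, hδ, hδG⟩ := hχ.cpt.isCompact.exists_cthickening_subset_open hG hχ.sub
  obtain ⟨C, hC0, hC⟩ := bd61 hG hu hχ.cpt.isCompact hδG
  obtain ⟨H, hH, hHeq⟩ := BH.of_smooth hG hu
  have hi : LocallyIntegrableOn u G volume :=
    hu.smooth.continuousOn.locallyIntegrableOn hG.measurableSet
  have hlim : ∀ᵐ z, ∀ j k, z ∈ G →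
      Tendsto (fun ε => hess (fun y => Phi u y ε) z j k) (𝓝[>] 0) (𝓝 (H z j k)) :=
    ae_all_iff.2 fun j => ae_all_iff.2 fun k => BH.ae_tendsto hG hH j k
  refine tendsto_integral_filter_of_dominated_convergence
    (fun z => |χ z| * (|c| * (n.factorial * C ^ n))) ?_ ?_ ?_ ?_
  · filter_upwards [Ioc_mem_nhdsGT hδ] with ε hε
    have h1 : Continuous fun z => χ z * (c * (hess (fun y => Phi u y ε) z).det.re) := by
      refine continuous_of_tsupport fun x hx => ?_
      have hx' : x ∈ tsupport χ := tsupport_mul_subset_left hx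
      have hx2 : x ∈ shr G ε := shr_of61 hδG hx' hε.2
      have hP : ContDiffOn ℝ 2 (fun y => Phi u y ε) (shr G ε) :=
        (contDiffOn_Phi_left hG hi hε.1).of_le two_le61
      have hd : ContinuousOn (fun z => (hess (fun y => Phi u y ε) z).det) (shr G ε) := by
        have h2 : ContinuousOn (fun z => hess (fun y => Phi u y ε) z) (shr G ε) :=
          continuousOn_pi.2 fun j => continuousOn_pi.2 fun k =>
            continuousOn_hess (isOpen_shr hG ε) hP j k
        exact continuous_id.matrix_det.comp_continuousOn h2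
      have h3 := (Complex.continuous_re.comp_continuousOn hd).continuousAt
        ((isOpen_shr hG ε).mem_nhds hx2)
      exact hχ.smooth.continuous.continuousAt.mul (continuousAt_const.mul h3)
    exact h1.aestronglyMeasurable
  · filter_upwards [Ioc_mem_nhdsGT hδ] with ε hε
    refine Eventually.of_forall fun z => ?_
    rw [norm_mul, norm_mul, Real.norm_eq_abs, Real.norm_eq_abs, Real.norm_eq_abs]
    by_cases hz : z ∈ tsupport χ
    · have h1 := det_bd61 (hC ε hε.1 hε.2 z hz)
      exact mul_le_mul_of_nonneg_left (mul_le_mul_of_nonneg_left h1 (abs_nonneg _)) (abs_nonneg _)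
    · have h0 : χ z = 0 := image_eq_zero_of_notMem_tsupport hz
      rw [h0, abs_zero, zero_mul, zero_mul]
  · exact (hχ.smooth.continuous.integrable_of_hasCompactSupport hχ.cpt).abs.mul_const _
  · filter_upwards [hlim] with z hz
    by_cases hzG : z ∈ G
    · have h1 : Tendsto (fun ε => hess (fun y => Phi u y ε) z) (𝓝[>] 0) (𝓝 (hess u z)) := by
        rw [← hHeq z hzG]
        exact tendsto_pi_nhds.2 fun j => tendsto_pi_nhds.2 fun k => hz j k hzG
      have h2 : Tendsto (fun ε => (hess (fun y => Phi u y ε) z).det) (𝓝[>] 0) (𝓝 (hess u z).det) :=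
        (continuous_id.matrix_det.tendsto (hess u z)).comp h1
      have h3 := (Complex.continuous_re.tendsto _).comp h2
      exact (h3.const_mul c).const_mul (χ z)
    · have h0 : χ z = 0 := by
        by_contra h
        exact hzG (hχ.sub (subset_tsupport _ h))
      simp only [h0, zero_mul]
      exact tendsto_const_nhds

namespace Atl

variable {X : Type} [TopologicalSpace X] [MeasurableSpace X] {N : ℕ} (A : Atl X n N)
variable [CompactSpace X] [T2Space X] [BorelSpace X]

/-- a measure as in `VolLe` is `cn det hess` on the open sets where the function is smooth -/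
theorem HasMA.restrict_eq {D : Set X} (hD : IsOpen D) {v : X → ℝ} (hv : A.SmoothOn D v)
    (hp : A.PSX v) {m : Measure X} [IsFiniteMeasure m] (hm : A.HasMA v m) {F : X → ℝ} (hF : ContinuousOn F D)
    (hF0 : ∀ x ∈ D, 0 ≤ F x) (hFi : IntegrableOn F D A.μ)
    (heq : ∀ i, ∀ z ∈ (A.e i).target, (A.e i).symm z ∈ D →
      (hess (A.pot i v) z).det.re = A.lc i F z * A.f i z) :
    m.restrict D = (A.μ.withDensity fun x => ENNReal.ofReal (F x)).restrict D := by
  classical
  obtain ⟨m2, hm2⟩ : ∃ m2 : Measure X, m2 = (A.μ.withDensity fun x => ENNReal.ofReal (F x)).restrict D :=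
    ⟨_, rfl⟩
  have hm2f : IsFiniteMeasure m2 := by
    refine ⟨?_⟩
    rw [hm2, Measure.restrict_apply_univ, withDensity_apply _ hD.measurableSet]
    exact hFi.lintegral_lt_top
  -- the open sets
  have hGo : ∀ (i : Fin N) (j : ℕ), IsOpen (A.Om D i ∩ A.pot i v ⁻¹' Ioi (-(j : ℝ))) := fun i j =>
    ((SmoothOn.spsh A hD hv hp i).smooth.continuousOn).isOpen_inter_preimage (A.isOpen_Om hD i) isOpen_Ioi
  obtain ⟨G, hG⟩ : ∃ G : Fin N → ℕ → Set (V n), G = fun i (j : ℕ) => A.Om D i ∩ A.pot i v ⁻¹' Ioi (-(j : ℝ)) :=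
    ⟨_, rfl⟩
  have hGo' : ∀ i j, IsOpen (G i j) := by rw [hG]; exact hGo
  have hGOm : ∀ i j, G i j ⊆ A.Om D i := by
    rw [hG]
    exact fun i j => inter_subset_left
  obtain ⟨O, hO⟩ : ∃ O : Fin N → ℕ → Set X, O = fun i j => (A.e i).source ∩ (A.e i) ⁻¹' G i j := ⟨_, rfl⟩
  have hOo : ∀ i j, IsOpen (O i j) := by
    rw [hO]
    exact fun i j => (A.e i).isOpen_inter_preimage (hGo' i j)
  have hOs : ∀ i j, O i j ⊆ (A.e i).source := by
    rw [hO]
    exact fun i j => inter_subset_left
  have hOD : ∀ i j, O i j ⊆ D := by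
    intro i j x hx
    rw [hO] at hx
    have h1 := (hGOm i j hx.2).2.2
    change (A.e i).symm (A.e i x) ∈ D at h1
    rwa [(A.e i).left_inv hx.1] at h1
  have hOB : ∀ i j, O i j ⊆ A.Bi i 3 := by
    intro i j x hx
    rw [hO] at hx
    exact ⟨hx.1, mem_ball_zero_iff.1 (hGOm i j hx.2).1⟩
  have hOG : ∀ i j, (A.e i).target ∩ (A.e i).symm ⁻¹' O i j = G i j := by
    intro i j
    ext z
    constructor
    · rintro ⟨hz, hz2⟩
      change (A.e i).symm z ∈ O i j at hz2
      rw [hO] at hz2
      have h1 : A.e i ((A.e i).symm z) ∈ G i j := hz2.2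
      rwa [(A.e i).right_inv hz] at h1
    · intro hz
      have hzt : z ∈ (A.e i).target := (hGOm i j hz).2.1
      refine ⟨hzt, ?_⟩
      change (A.e i).symm z ∈ O i j
      rw [hO]
      refine ⟨(A.e i).map_target hzt, ?_⟩
      change A.e i ((A.e i).symm z) ∈ G i j
      rwa [(A.e i).right_inv hzt]
  have key : ∀ i j, m.restrict (O i j) = m2.restrict (O i j) := by
    intro i j
    refine A.chart_ext i (hOo i j) (hOs i j) m m2 fun χ hχ => ?_
    rw [hOG] at hχ
    have hout : ∀ x, x ∈ (A.e i).source → x ∉ O i j → χ (A.e i x) = 0 := by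
      intro x hx hxO
      by_contra h
      refine hxO ?_
      rw [hO]
      exact ⟨hx, hχ.sub (subset_tsupport _ h)⟩
    have hB3 : G i j ⊆ B3 n := fun z hz => (hGOm i j hz).1
    have h1 := hm i (G i j) (hGo' i j) hB3 ⟨j, Eventually.of_forall fun z hz => by
      rw [hG] at hz
      exact (le_of_lt hz.2)⟩ χ hχ
    have hsp : SPsh (G i j) (A.pot i v) := by
      have h := SmoothOn.spsh A hD hv hp i
      exact ⟨h.smooth.mono (hGOm i j), fun z hz => h.psh z (hGOm i j hz)⟩
    have h2 := tendsto_nhds_unique h1 (tendsto_hess_det (hGo' i j) hsp hχ (cn n))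
    have h3 : ∫ x in O i j, χ (A.e i x) ∂m = ∫ x in A.Bi i 3, χ (A.e i x) ∂m := by
      refine (setIntegral_eq_of_subset_of_forall_sdiff_eq_zero (A.isOpen_Bi i 3).measurableSet (hOB i j) ?_).symm
      rintro x ⟨hx, hx'⟩
      exact hout x hx.1 hx'
    have h4 : ∫ z, χ z * (cn n * (hess (A.pot i v) z).det.re) =
        ∫ z in G i j, A.lc i (fun x => F x * χ (A.e i x)) z * (cn n * A.f i z) := by
      rw [← integral_indicator (hGo' i j).measurableSet]
      refine integral_congr_ae (Eventually.of_forall fun z => ?_)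
      by_cases hz : z ∈ G i j
      · have hz2 := hGOm i j hz
        rw [indicator_of_mem hz]
        change χ z * (cn n * (hess (A.pot i v) z).det.re) =
          F ((A.e i).symm z) * χ (A.e i ((A.e i).symm z)) * (cn n * A.f i z)
        rw [(A.e i).right_inv hz2.2.1, heq i z hz2.2.1 hz2.2.2]
        unfold lc
        ring
      · rw [indicator_of_notMem hz]
        change χ z * _ = 0
        have h0 : χ z = 0 := by
          by_contra h
          exact hz (hχ.sub (subset_tsupport _ h))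
        rw [h0, zero_mul]
    have h5 : ∫ x in O i j, χ (A.e i x) ∂m2 = ∫ x in O i j, F x * χ (A.e i x) ∂A.μ := by
      have hFm : AEMeasurable (fun x => ENNReal.ofReal (F x)) (A.μ.restrict (O i j)) :=
        (hF.mono (hOD i j)).aemeasurable (hOo i j).measurableSet |>.ennreal_ofReal
      rw [hm2, Measure.restrict_restrict (hOo i j).measurableSet, inter_eq_left.2 (hOD i j),
        restrict_withDensity (hOo i j).measurableSet,
        integral_withDensity_eq_integral_toReal_smul₀ hFm (Eventually.of_forall fun x => ENNReal.ofReal_lt_top)]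
      refine setIntegral_congr_fun (hOo i j).measurableSet fun x hx => ?_
      change (ENNReal.ofReal (F x)).toReal • χ (A.e i x) = _
      rw [ENNReal.toReal_ofReal (hF0 x (hOD i j hx)), smul_eq_mul]
    rw [h3, h2, h4, h5, A.setIntegral_chart i (hOo i j).measurableSet (hOs i j), hOG]
  -- the union
  have hU : D = ⋃ i, ⋃ j, O i j := by
    ext x
    constructor
    · intro hx
      obtain ⟨i, hi, hi1⟩ := A.cover x
      obtain ⟨j, hj⟩ := exists_nat_gt (-(A.pot i v (A.e i x)))
      refine mem_iUnion.2 ⟨i, mem_iUnion.2 ⟨j, ?_⟩⟩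
      rw [hO, hG]
      refine ⟨hi, ⟨⟨mem_ball_zero_iff.2 (by linarith), (A.e i).map_source hi, ?_⟩, ?_⟩⟩
      · change (A.e i).symm (A.e i x) ∈ D
        rwa [(A.e i).left_inv hi]
      · change -(j : ℝ) < A.pot i v (A.e i x)
        linarith
    · intro hx
      obtain ⟨i, hi⟩ := mem_iUnion.1 hx
      obtain ⟨j, hj⟩ := mem_iUnion.1 hi
      exact hOD i j hj
  have h6 : m.restrict D = m2.restrict D := by
    rw [hU, Measure.restrict_iUnion_congr]
    intro i
    rw [Measure.restrict_iUnion_congr]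
    exact fun j => key i j
  rw [h6, hm2, Measure.restrict_restrict hD.measurableSet, inter_self]

theorem Sol.integral_nonpos (hV : A.VolLe) {D : Set X} (hD : IsOpen D) (hD0 : A.μ Dᶜ = 0) {τ C : ℝ}
    (hτ : 0 < τ) {φ : X → ℝ} (h : A.Sol D τ C φ) : ∫ x, φ x ∂A.μ ≤ 0 := by
  have hfin : IsFiniteMeasure A.μ := A.isFiniteMeasure
  have hp : A.PSX φ := St.psx A h.st
  obtain ⟨m, hm, hle⟩ := hV φ hp
  have hmf : IsFiniteMeasure m := ⟨hle.trans_lt (measure_lt_top _ _)⟩
  have hφi : Integrable φ A.μ := St.integrable A h.st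
  have hcont : ContinuousOn φ D := SmoothOn.continuousOn A h.smooth hD
  have hFc : ContinuousOn (fun x => Real.exp (τ * φ x)) D := (continuousOn_const.mul hcont).rexp
  have hFm : AEStronglyMeasurable (fun x => Real.exp (τ * φ x)) A.μ :=
    Real.continuous_exp.comp_aestronglyMeasurable (hφi.aestronglyMeasurable.const_mul τ)
  have hFi : Integrable (fun x => Real.exp (τ * φ x)) A.μ := by
    refine Integrable.mono' (integrable_const (Real.exp (τ * C))) hFm ?_
    filter_upwards [h.st.le] with x hx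
    rw [Real.norm_of_nonneg (Real.exp_pos _).le]
    exact Real.exp_le_exp.2 (mul_le_mul_of_nonneg_left hx hτ.le)
  have h1 := HasMA.restrict_eq A hD h.smooth hp hm (F := fun x => Real.exp (τ * φ x)) hFc
    (fun x _ => (Real.exp_pos _).le) hFi.integrableOn h.eq
  have h2 : m D = ∫⁻ x in D, ENNReal.ofReal (Real.exp (τ * φ x)) ∂A.μ := by
    have h3 := congrArg (fun ν : Measure X => ν univ) h1
    simp only [Measure.restrict_apply_univ] at h3
    rw [h3, withDensity_apply _ hD.measurableSet]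
  have h4 : ∫⁻ x, ENNReal.ofReal (Real.exp (τ * φ x)) ∂A.μ ≤ A.μ univ := by
    have h5 : A.μ.restrict D = A.μ := by
      rw [Measure.restrict_eq_self_of_ae_mem]
      exact mem_ae_iff.2 hD0
    rw [h5] at h2
    rw [← h2]
    exact (measure_mono (subset_univ _)).trans hle
  have h5 : ∫ x, Real.exp (τ * φ x) ∂A.μ ≤ A.μ.real univ := by
    rw [integral_eq_lintegral_of_nonneg_ae (Eventually.of_forall fun x => (Real.exp_pos _).le) hFm]
    exact ENNReal.toReal_mono (measure_ne_top _ _) h4
  have h6 : ∫ x, (1 + τ * φ x) ∂A.μ ≤ ∫ x, Real.exp (τ * φ x) ∂A.μ := by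
    refine integral_mono ((integrable_const 1).add (hφi.const_mul τ)) hFi fun x => ?_
    change 1 + τ * φ x ≤ Real.exp (τ * φ x)
    linarith [Real.add_one_le_exp (τ * φ x)]
  rw [integral_add (integrable_const 1) (hφi.const_mul τ), integral_const, integral_const_mul,
    smul_eq_mul, mul_one] at h6
  have h7 : τ * ∫ x, φ x ∂A.μ ≤ 0 := by linarith
  by_contra hlt
  rw [not_le] at hlt
  have := mul_pos hτ hlt
  linarith

end Atl

end Pool.Agent.Helper29.AM
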