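import Pool.Agent.Helper29.AM.GA1
import Pool.Agent.Helper29.AM.GS2
import Pool.Agent.Helper29.AM.Ker

/-!
# Project AM, block 8D: uniform upper bound (8.2)

Constants: `cf ≤ f i ≤ Cf` and `|Φ_g(z,1) - g(z)| ≤ C_g` (`exists_f_bounds`, `exists_Phi_g_bound`), `ρ ≥ ρm > 0` on `ball 0 (1/2)`
(`rho` is positive and continuous on the closed ball of radius `1/2`).
Suppose `v ≤ C₀` a.e. is false, `C₀ ≥ 0` as below. `M := sInf {M | v ≤ M a.e.}` (nonempty, bounded below by `C₀`), `v ≤ M` a.e.,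
`v ≤ M - 1` a.e. is false, so (`ae_iff_ball`, `ae_le_Phi` (2.4)) there are `i` and `z ∈ ball 0 1` with `M - 1 < v(e_i⁻¹ z)` and
`u z ≤ Φ_u(z,1)`, `u = pot i v`. Hence `∫ ρ(η) (M - lc i v (z+η)) dη ≤ 1 + C_g`, so
`∫_{ball z (1/2)} (M - lc i v) ≤ (1 + C_g)/ρm`, and for `S = e_i⁻¹(ball z (1/2))`: `∫_S (M - v) dμ ≤ C₂ := cn Cf (1+C_g)/ρm`,
`μ(S) ≥ c₃ := cn cf vol(ball 0 (1/2))` (`setIntegral_chart`). `0 ≥ ∫ v dμ ≥ M μ(S) - C₂ + ∫_{Sᶜ} φ dμ ≥ M c₃ - C₂ - ∫|φ| dμ`.
`C₀ := (C₂ + ∫|φ|)/c₃ + 1` is a contradiction.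
-/

set_option autoImplicit false

namespace Pool.Agent.Helper29.AM

open MeasureTheory Set Filter Topology
open scoped ComplexOrder

variable {n : ℕ}

namespace Atl

variable {X : Type} [TopologicalSpace X] [MeasurableSpace X] {N : ℕ} (A : Atl X n N)
variable [CompactSpace X] [T2Space X] [BorelSpace X]

private theorem rho_low61 : ∃ r : ℝ, 0 < r ∧ ∀ η : V n, ‖η‖ ≤ 1 / 2 → r ≤ rho η := by
  obtain ⟨x, hx, hmin⟩ := (isCompact_closedBall (0 : V n) (1 / 2)).exists_isMinOn
    ⟨0, Metric.mem_closedBall_self (by norm_num)⟩ (rho_contDiff (n := n)).continuous.continuousOn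
  refine ⟨rho x, rho_pos (by linarith [mem_closedBall_zero_iff.1 hx]), fun η hη => ?_⟩
  exact hmin (mem_closedBall_zero_iff.2 hη)

/-- the local estimate: an almost maximal value controls the integral over a smaller ball -/
private theorem local61 {r : ℝ} (hr : 0 < r) (hrho : ∀ η : V n, ‖η‖ ≤ 1 / 2 → r ≤ rho η) {w : V n → ℝ}
    (hw : LocallyIntegrableOn w (B3 n) volume) (hw0 : ∀ᵐ y, y ∈ B3 n → 0 ≤ w y) {z : V n}
    (hz : ‖z‖ < 1) {a : ℝ} (ha : Phi w z 1 ≤ a) :
    ∫ y in Metric.ball z (1 / 2), w y ≤ a / r := by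
  have hB3 : IsOpen (B3 n) := Metric.isOpen_ball
  have hzs : ∀ η : V n, ‖η‖ ≤ 1 → z + (sc 1 : Lin n) η ∈ B3 n := by
    intro η hη
    rw [sc_apply]
    refine mem_ball_zero_iff.2 ?_
    rw [Complex.ofReal_one, one_smul]
    exact (norm_add_le _ _).trans_lt (by linarith)
  have hdet : (sc 1 : Lin n).det ≠ 0 := by
    rw [det_sc]
    exact pow_ne_zero _ (by norm_num)
  have h1 : Phi w z 1 = Phi (fun y => max (w y) 0) z 1 :=
    M_congr_ae hdet hB3 (hw0.mono fun y hy hyB => (max_eq_left (hy hyB)).symm) hzs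
  have hsub : Metric.ball z (1 / 2) ⊆ B3 n := by
    intro y hy
    rw [Metric.mem_ball, dist_eq_norm] at hy
    refine mem_ball_zero_iff.2 ?_
    have h := norm_add_le (y - z) z
    rw [sub_add_cancel] at h
    linarith
  have h2 : ∫ y in Metric.ball z (1 / 2), w y = ∫ y in Metric.ball z (1 / 2), max (w y) 0 := by
    refine setIntegral_congr_ae Metric.isOpen_ball.measurableSet ?_
    filter_upwards [hw0] with y hy hyb
    exact (max_eq_left (hy (hsub hyb))).symm
  have hw' : LocallyIntegrableOn (fun y => max (w y) 0) (B3 n) volume := by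
    intro y hy
    obtain ⟨s, hs, hi⟩ := hw y hy
    exact ⟨s, hs, hi.pos_part⟩
  have h3 : ∫ y in Metric.ball z (1 / 2), max (w y) 0 =
      ∫ η, (Metric.ball z (1 / 2)).indicator (fun y => max (w y) 0) (z + η) := by
    rw [← integral_indicator Metric.isOpen_ball.measurableSet]
    exact (integral_add_left_eq_self _ z).symm
  have h4 : r * ∫ η, (Metric.ball z (1 / 2)).indicator (fun y => max (w y) 0) (z + η) ≤
      Phi (fun y => max (w y) 0) z 1 := by
    rw [← integral_const_mul]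
    change _ ≤ ∫ η : V n, rho η * max (w (z + (sc 1 : Lin n) η)) 0
    have hi := (integrable_rho_mul hdet hB3 hw' hzs).1
    refine integral_mono_of_nonneg (Eventually.of_forall fun η => ?_) hi (Eventually.of_forall fun η => ?_)
    · exact mul_nonneg hr.le (indicator_nonneg (fun y _ => le_max_right _ _) _)
    · change r * (Metric.ball z (1 / 2)).indicator (fun y => max (w y) 0) (z + η) ≤
        rho η * max (w (z + (sc 1 : Lin n) η)) 0
      have hsc : (sc 1 : Lin n) η = η := by rw [sc_apply, Complex.ofReal_one, one_smul]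
      rw [hsc]
      by_cases hη : z + η ∈ Metric.ball z (1 / 2)
      · rw [indicator_of_mem hη]
        rw [Metric.mem_ball, dist_self_add_left] at hη
        exact mul_le_mul_of_nonneg_right (hrho η hη.le) (le_max_right _ _)
      · rw [indicator_of_notMem hη, mul_zero]
        exact mul_nonneg (rho_nonneg η) (le_max_right _ _)
  rw [h2, h3, le_div_iff₀ hr, mul_comm]
  rw [h1] at ha
  exact h4.trans ha

theorem exists_upper {φ : X → ℝ} (hφ : Integrable φ A.μ) :
    ∃ C₀ : ℝ, 0 ≤ C₀ ∧ ∀ v : X → ℝ, A.PSX v → (∀ᵐ x ∂A.μ, φ x ≤ v x) →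
      (∃ C : ℝ, ∀ᵐ x ∂A.μ, v x ≤ C) → ∫ x, v x ∂A.μ ≤ 0 → ∀ᵐ x ∂A.μ, v x ≤ C₀ := by
  have hfin : IsFiniteMeasure A.μ := A.isFiniteMeasure
  obtain ⟨cf, Cf, hcf, hCf, hf⟩ := A.exists_f_bounds
  obtain ⟨Cg, hCg, hg⟩ := A.exists_Phi_g_bound
  obtain ⟨r, hr, hrho⟩ := rho_low61 (n := n)
  obtain ⟨J, hJ⟩ : ∃ J, J = ∫ x, |φ x| ∂A.μ := ⟨_, rfl⟩
  have hJ0 : 0 ≤ J := by
    rw [hJ]
    exact integral_nonneg fun x => abs_nonneg _
  have hcn := cn_pos n
  obtain ⟨C2, hC2⟩ : ∃ C2, C2 = cn n * Cf * ((1 + Cg) / r) := ⟨_, rfl⟩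
  have hC20 : 0 ≤ C2 := by
    rw [hC2]
    positivity
  have hvol : 0 < volume.real (Metric.ball (0 : V n) (1 / 2)) :=
    ENNReal.toReal_pos (Metric.measure_ball_pos volume _ (by norm_num)).ne' measure_ball_lt_top.ne
  obtain ⟨c3, hc3⟩ : ∃ c3, c3 = cn n * cf * volume.real (Metric.ball (0 : V n) (1 / 2)) := ⟨_, rfl⟩
  have hc30 : 0 < c3 := by
    rw [hc3]
    positivity
  have hq0 : 0 ≤ (C2 + J) / c3 := by positivity
  refine ⟨(C2 + J) / c3 + 1, by linarith, fun v hv hle hbd hint => ?_⟩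
  by_contra hcon
  have hvi : Integrable v A.μ := PSX.integrable A hv
  obtain ⟨S, hS⟩ : ∃ S : Set ℝ, S = {M : ℝ | ∀ᵐ x ∂A.μ, v x ≤ M} := ⟨_, rfl⟩
  have hSne : S.Nonempty := by
    obtain ⟨C, hC⟩ := hbd
    refine ⟨C, ?_⟩
    rw [hS]
    exact hC
  have hSb : ∀ M ∈ S, (C2 + J) / c3 + 1 ≤ M := by
    intro M hM
    by_contra hlt
    rw [not_le] at hlt
    rw [hS] at hM
    refine hcon ?_
    filter_upwards [hM] with x hx
    exact hx.trans hlt.le
  obtain ⟨M, hM⟩ : ∃ M, M = sInf S := ⟨_, rfl⟩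
  have hM1 : (C2 + J) / c3 + 1 ≤ M := by
    rw [hM]
    exact le_csInf hSne hSb
  have hM0 : 0 ≤ M := by linarith
  have hMS : ∀ᵐ x ∂A.μ, v x ≤ M := by
    have h1 : ∀ k : ℕ, ∀ᵐ x ∂A.μ, v x ≤ M + 1 / ((k : ℝ) + 1) := by
      intro k
      have h2 : sInf S < M + 1 / ((k : ℝ) + 1) := by
        rw [← hM]
        have : 0 < 1 / ((k : ℝ) + 1) := by positivity
        linarith
      obtain ⟨M', hM', hlt⟩ := exists_lt_of_csInf_lt hSne h2
      rw [hS] at hM'
      filter_upwards [hM'] with x hx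
      exact hx.trans hlt.le
    filter_upwards [ae_all_iff.2 h1] with x hx
    have h2 : Tendsto (fun k : ℕ => M + 1 / ((k : ℝ) + 1)) atTop (𝓝 (M + 0)) :=
      tendsto_const_nhds.add tendsto_one_div_add_atTop_nhds_zero_nat
    rw [add_zero] at h2
    exact ge_of_tendsto' h2 hx
  have hM1S : ¬ ∀ᵐ x ∂A.μ, v x ≤ M - 1 := by
    intro h
    have h1 : M - 1 ∈ S := by
      rw [hS]
      exact h
    have h2 : M ≤ M - 1 := by
      conv_lhs => rw [hM]
      exact csInf_le ⟨_, hSb⟩ h1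
    linarith
  rw [A.ae_iff_ball] at hM1S
  push Not at hM1S
  obtain ⟨i, hi⟩ := hM1S
  have hB3 : IsOpen (B3 n) := Metric.isOpen_ball
  obtain ⟨z, hz, hz1, hz2⟩ : ∃ z : V n, ‖z‖ < 1 ∧ M - 1 < A.lc i v z ∧
      A.pot i v z ≤ Phi (A.pot i v) z 1 := by
    by_contra hno
    push Not at hno
    refine absurd ?_ hi
    filter_upwards [le_Phi hB3 (hv i)] with z hz
    rintro ⟨hzb, hlt⟩
    have hz1 : ‖z‖ < 1 := mem_ball_zero_iff.1 hzb
    have h1 := hno z hz1 hlt
    have h2 := hz (mem_ball_zero_iff.2 (by linarith)) 1 one_pos (by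
      intro y hy
      rw [Metric.mem_closedBall, dist_eq_norm] at hy
      refine mem_ball_zero_iff.2 ?_
      have h := norm_add_le (y - z) z
      rw [sub_add_cancel] at h
      linarith)
    linarith
  have hzs : z ∈ shr (B3 n) 1 := by
    intro y hy
    rw [Metric.mem_closedBall, dist_eq_norm] at hy
    refine mem_ball_zero_iff.2 ?_
    have h := norm_add_le (y - z) z
    rw [sub_add_cancel] at h
    linarith
  have hgl : LocallyIntegrableOn (A.g i) (B3 n) volume :=
    ((A.g_smooth i).continuousOn.mono (A.B3_subset i)).locallyIntegrableOn hB3.measurableSet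
  have hlv : LocallyIntegrableOn (A.lc i v) (B3 n) volume := A.locallyIntegrable_lc hvi i
  have hPadd : Phi (A.pot i v) z 1 = Phi (A.g i) z 1 + Phi (A.lc i v) z 1 :=
    Phi_add hB3 hgl hlv one_pos hzs
  have hgz := (abs_le.1 (hg i z (by linarith) 1 zero_le_one le_rfl)).2
  have hlow : M - 1 - Cg ≤ Phi (A.lc i v) z 1 := by
    rw [hPadd] at hz2
    unfold pot at hz2
    nlinarith
  have hwl : LocallyIntegrableOn (fun y => M - A.lc i v y) (B3 n) volume :=
    (locallyIntegrableOn_const M).sub hlv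
  have hPw : Phi (fun y => M - A.lc i v y) z 1 ≤ 1 + Cg := by
    have h1 : Phi (fun y => (M - A.lc i v y) + A.lc i v y) z 1 =
        Phi (fun y => M - A.lc i v y) z 1 + Phi (A.lc i v) z 1 := Phi_add hB3 hwl hlv one_pos hzs
    have h2 : (fun y => (M - A.lc i v y) + A.lc i v y) = fun _ : V n => M := by
      funext y
      ring
    rw [h2, Phi_const] at h1
    linarith
  have hMt := A.ae_target hMS i
  have hwpos : ∀ᵐ y, y ∈ B3 n → 0 ≤ M - A.lc i v y := by
    filter_upwards [hMt] with y hy hyB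
    have := hy (A.B3_subset i hyB)
    unfold lc
    linarith
  have hloc := local61 hr hrho hwl hwpos hz hPw
  -- transfer to `X`
  have hsub : Metric.ball z (1 / 2) ⊆ B3 n := by
    intro y hy
    rw [Metric.mem_ball, dist_eq_norm] at hy
    refine mem_ball_zero_iff.2 ?_
    have h := norm_add_le (y - z) z
    rw [sub_add_cancel] at h
    linarith
  have hsubt : Metric.ball z (1 / 2) ⊆ (A.e i).target := hsub.trans (A.B3_subset i)
  obtain ⟨T, hT⟩ : ∃ T : Set X, T = (A.e i).source ∩ (A.e i) ⁻¹' Metric.ball z (1 / 2) := ⟨_, rfl⟩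
  have hTo : IsOpen T := by
    rw [hT]
    exact (A.e i).isOpen_inter_preimage Metric.isOpen_ball
  have hTs : T ⊆ (A.e i).source := by
    rw [hT]
    exact inter_subset_left
  have hTB : (A.e i).target ∩ (A.e i).symm ⁻¹' T = Metric.ball z (1 / 2) := by
    ext y
    constructor
    · rintro ⟨hy, hy2⟩
      change (A.e i).symm y ∈ T at hy2
      rw [hT] at hy2
      have h1 : A.e i ((A.e i).symm y) ∈ Metric.ball z (1 / 2) := hy2.2
      rwa [(A.e i).right_inv hy] at h1
    · intro hy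
      refine ⟨hsubt hy, ?_⟩
      change (A.e i).symm y ∈ T
      rw [hT]
      refine ⟨(A.e i).map_target (hsubt hy), ?_⟩
      change A.e i ((A.e i).symm y) ∈ Metric.ball z (1 / 2)
      rwa [(A.e i).right_inv (hsubt hy)]
  have hcl4 : ∀ y ∈ Metric.closedBall z (1 / 2), ‖y‖ ≤ 4 := by
    intro y hy
    rw [Metric.mem_closedBall, dist_eq_norm] at hy
    have h := norm_add_le (y - z) z
    rw [sub_add_cancel] at h
    linarith
  have hfc : ContinuousOn (A.f i) (Metric.closedBall z (1 / 2)) :=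
    (A.f_smooth i).continuousOn.mono fun y hy => A.mem_target_of_norm_le (hcl4 y hy)
  have hwB : IntegrableOn (fun y => M - A.lc i v y) (Metric.closedBall z (1 / 2)) volume := by
    refine hwl.integrableOn_compact_subset (fun y hy => ?_) (isCompact_closedBall _ _)
    rw [Metric.mem_closedBall, dist_eq_norm] at hy
    refine mem_ball_zero_iff.2 ?_
    have h := norm_add_le (y - z) z
    rw [sub_add_cancel] at h
    linarith
  have hb1 : IntegrableOn (fun y => (M - A.lc i v y) * (cn n * A.f i y)) (Metric.ball z (1 / 2)) volume :=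
    (hwB.mul_continuousOn (continuousOn_const.mul hfc) (isCompact_closedBall _ _)).mono_set
      Metric.ball_subset_closedBall
  have hb2 : IntegrableOn (fun y => (M - A.lc i v y) * (cn n * Cf)) (Metric.ball z (1 / 2)) volume :=
    (hwB.mono_set Metric.ball_subset_closedBall).mul_const _
  have hI1 : ∫ x in T, (M - v x) ∂A.μ ≤ C2 := by
    rw [A.setIntegral_chart i hTo.measurableSet hTs (fun x => M - v x), hTB]
    change ∫ y in Metric.ball z (1 / 2), (M - A.lc i v y) * (cn n * A.f i y) ≤ C2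
    have h1 : ∫ y in Metric.ball z (1 / 2), (M - A.lc i v y) * (cn n * A.f i y) ≤
        ∫ y in Metric.ball z (1 / 2), (M - A.lc i v y) * (cn n * Cf) := by
      refine setIntegral_mono_on_ae hb1 hb2 Metric.isOpen_ball.measurableSet ?_
      filter_upwards [hwpos] with y hy hyb
      refine mul_le_mul_of_nonneg_left ?_ (hy (hsub hyb))
      exact mul_le_mul_of_nonneg_left (hf i y (hcl4 y (Metric.ball_subset_closedBall hyb))).2 hcn.le
    rw [integral_mul_const] at h1
    rw [hC2]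
    have h2 : 0 ≤ cn n * Cf := by positivity
    have h3 := mul_le_mul_of_nonneg_right hloc h2
    linarith
  have hI2 : c3 ≤ A.μ.real T := by
    have h1 : ∫ x in T, (1 : ℝ) ∂A.μ = A.μ.real T := by
      rw [setIntegral_const, smul_eq_mul, mul_one]
    rw [← h1, A.setIntegral_chart i hTo.measurableSet hTs (fun _ => 1), hTB]
    change c3 ≤ ∫ y in Metric.ball z (1 / 2), (1 : ℝ) * (cn n * A.f i y)
    have h2 : ∫ y in Metric.ball z (1 / 2), cn n * cf ≤
        ∫ y in Metric.ball z (1 / 2), (1 : ℝ) * (cn n * A.f i y) := by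
      refine setIntegral_mono_on (integrableOn_const measure_ball_lt_top.ne) ?_
        Metric.isOpen_ball.measurableSet fun y hy => ?_
      · exact ((continuousOn_const.mul (continuousOn_const.mul hfc)).integrableOn_compact
          (isCompact_closedBall _ _)).mono_set Metric.ball_subset_closedBall
      · rw [one_mul]
        exact mul_le_mul_of_nonneg_left (hf i y (hcl4 y (Metric.ball_subset_closedBall hy))).1 hcn.le
    refine le_trans ?_ h2
    rw [setIntegral_const, smul_eq_mul, hc3]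
    have h3 : volume.real (Metric.ball z (1 / 2)) = volume.real (Metric.ball (0 : V n) (1 / 2)) := by
      unfold Measure.real
      rw [Measure.addHaar_ball_center]
    rw [h3]
    exact le_of_eq (by ring)
  have hI3 : ∫ x in T, (M - v x) ∂A.μ = M * A.μ.real T - ∫ x in T, v x ∂A.μ := by
    rw [integral_sub (integrable_const M) hvi.integrableOn, setIntegral_const, smul_eq_mul, mul_comm]
  have hI4 : ∫ x, v x ∂A.μ = (∫ x in T, v x ∂A.μ) + ∫ x in Tᶜ, v x ∂A.μ :=
    (integral_add_compl hTo.measurableSet hvi).symm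
  have hI5 : -J ≤ ∫ x in Tᶜ, v x ∂A.μ := by
    have h1 : ∫ x in Tᶜ, φ x ∂A.μ ≤ ∫ x in Tᶜ, v x ∂A.μ :=
      setIntegral_mono_ae hφ.integrableOn hvi.integrableOn hle
    have h2 : ∫ x in Tᶜ, |φ x| ∂A.μ ≤ J := by
      rw [hJ]
      exact setIntegral_le_integral hφ.abs (Eventually.of_forall fun x => abs_nonneg _)
    have h3 : -∫ x in Tᶜ, |φ x| ∂A.μ ≤ ∫ x in Tᶜ, φ x ∂A.μ := by
      rw [← integral_neg]
      refine integral_mono hφ.abs.neg.integrableOn hφ.integrableOn fun x => ?_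
      exact neg_abs_le (φ x)
    linarith
  have h1 : M * c3 ≤ M * A.μ.real T := mul_le_mul_of_nonneg_left hI2 hM0
  have h2 : M * c3 ≤ C2 + J := by linarith
  have h3 : M ≤ (C2 + J) / c3 := by
    rw [le_div_iff₀ hc30]
    exact h2
  linarith

end Atl

end Pool.Agent.Helper29.AM
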