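import Pool.Agent.Helper61.AM.M2
import Pool.Agent.Helper61.AM.Up
import Pool.Agent.Helper61.AM.Low

/-!
# Project AM, section 8: assembly
-/

set_option autoImplicit false

namespace Pool.Agent.Helper29.AM

open MeasureTheory Set Filter Topology
open scoped ComplexOrder

variable {n : ℕ}

namespace Atl

variable {X : Type} [TopologicalSpace X] [MeasurableSpace X] {N : ℕ} (A : Atl X n N)
variable [CompactSpace X] [T2Space X] [BorelSpace X]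

theorem sol_bounds61 (hn : 0 < n) (hV : A.VolLe) {D : Set X} {ψ ψ2 : X → ℝ} {ε a₀ : ℝ}
    (hψ : A.NicePair D ψ ψ2 ε a₀) {φ : X → ℝ} (hφ : A.St 0 0 φ) :
    ∃ C₀ : ℝ, ∀ τ : ℝ, 0 < τ → τ ≤ 1 → ∀ (C : ℝ) (φτ : X → ℝ), 0 ≤ C → A.Sol D τ C φτ →
      (∀ x ∈ D, φτ x ≤ C₀ ∧ ψ2 x - C₀ ≤ φτ x) ∧ ∀ᵐ x ∂A.μ, φ x ≤ φτ x := by
  have hfin : IsFiniteMeasure A.μ := A.isFiniteMeasure
  have hD := hψ.nice.isOpen
  have hφi : Integrable φ A.μ := St.integrable A hφ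
  obtain ⟨C₁, hC₁, hup⟩ := A.exists_upper hφi
  obtain ⟨J, hJ⟩ : ∃ J, J = ∫ x, (|φ x| + C₁) ∂A.μ := ⟨_, rfl⟩
  obtain ⟨C₂, hlow⟩ := A.exists_lower hn hψ C₁ J
  refine ⟨max C₁ C₂, fun τ hτ hτ1 C φτ hC hS => ?_⟩
  have hle : ∀ᵐ x ∂A.μ, φ x ≤ φτ x := hS.max φ (St.of_zero A hφ hτ.le hC)
  have hupa : ∀ᵐ x ∂A.μ, φτ x ≤ C₁ :=
    hup φτ (St.psx A hS.st) hle ⟨C, hS.st.le⟩ (Sol.integral_nonpos A hV hD hψ.nice.null hτ hS)
  have hcont : ContinuousOn φτ D := SmoothOn.continuousOn A hS.smooth hD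
  have hupD : ∀ x ∈ D, φτ x ≤ C₁ :=
    A.le_on_of_ae hD hcont continuousOn_const (hupa.mono fun x hx _ => hx)
  have hJτ : ∫ x, |φτ x| ∂A.μ ≤ J := by
    rw [hJ]
    refine integral_mono_ae (St.integrable A hS.st).abs (hφi.abs.add (integrable_const C₁)) ?_
    filter_upwards [hle, hupa] with x h1 h2
    change |φτ x| ≤ |φ x| + C₁
    rw [abs_le]
    constructor
    · linarith [neg_abs_le (φ x)]
    · linarith [abs_nonneg (φ x)]
  refine ⟨fun x hx => ⟨(hupD x hx).trans (le_max_left _ _), ?_⟩, hle⟩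
  have h1 := hlow τ hτ hτ1 C φτ hC hS hupD hJτ x hx
  linarith [le_max_right C₁ C₂]

end Atl

end Pool.Agent.Helper29.AM
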